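import Pool.Agent.Helper40.Spec.Delta
import Pool.Agent.Helper61.Cal.Square

/-!
# The tree of a square sequence

At a singular cardinal `β` of cofinality `ω` Jensen's `□_β` gives `β⁺` different countable
sequences in `β` such that, for every regular uncountable `κ ≤ β`, fewer than `κ` of them run
through a given set of size less than `κ`.
-/

set_option autoImplicit false

namespace Pool.Agent.Helper40.Spec

open Set Cardinal Order
open Pool.Agent.Helper61.Cal (IsLimPt Square exists_cofinal_seq exists_regular_seq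
  rank_lt_of_few)

theorem square_family {β : Cardinal.{0}} (hβ : ℵ₀ < β) (hcof : β.ord.cof = ℵ₀)
    (hsq : Square β) :
    ∃ F : (succ β).ord.ToType → ℕ → β.ord.ToType, Function.Injective F ∧
      ∀ κ : Cardinal.{0}, RU κ → κ ≤ β → ∀ C : Set β.ord.ToType, Sm κ C →
        Sm κ {ξ | ∀ n, F ξ n ∈ C} := by
  classical
  obtain ⟨C, hC⟩ := hsq
  obtain ⟨G, hG, hG'⟩ := exists_cofinal_seq hcof
  obtain ⟨b, hbreg, hble, hbmono, hGb, hblim⟩ := exists_regular_seq hβ hcof G hG hG'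
  have hW : #((succ β).ord.ToType) = succ β := by simp
  have hBc : #(β.ord.ToType) = β := by simp
  -- injections of initial segments
  have hinj : ∀ ξ : (succ β).ord.ToType, Nonempty (Iio ξ ↪ β.ord.ToType) := by
    intro ξ
    have h1 : #(Iio ξ) < succ β := by simpa using mk_Iio_lt ξ
    have h2 : #(Iio ξ) ≤ #(β.ord.ToType) := by rw [hBc]; exact le_of_lt_succ h1
    exact h2
  let e : ∀ ξ : (succ β).ord.ToType, Iio ξ ↪ β.ord.ToType := fun ξ => (hinj ξ).some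
  -- the relations
  let r : ℕ → (succ β).ord.ToType → (succ β).ord.ToType → Prop := fun n ζ ξ =>
    ∃ h : ζ < ξ, e ξ ⟨ζ, h⟩ ≤ G n ∨ (ζ ∈ C ξ ∧ #(C ξ) < b n)
  have hwf : ∀ n, IsWellFounded _ (r n) := fun n =>
    ⟨Subrelation.wf (r := (· < ·)) (fun {x y} h => h.1) wellFounded_lt⟩
  have hfew : ∀ n ξ, #{ζ // r n ζ ξ} < b n := by
    intro n ξ
    have h1 : {ζ | r n ζ ξ} ⊆ (Subtype.val '' ((e ξ) ⁻¹' (Iic (G n)))) ∪
        {ζ | ζ ∈ C ξ ∧ #(C ξ) < b n} := by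
      rintro ζ ⟨h, h2 | h2⟩
      · exact Or.inl ⟨⟨ζ, h⟩, h2, rfl⟩
      · exact Or.inr h2
    have h2 : #{ζ // r n ζ ξ} ≤ _ := mk_le_mk_of_subset h1
    refine lt_of_le_of_lt (h2.trans (mk_union_le _ _)) ?_
    apply add_lt_of_lt (hbreg n).aleph0_le
    · refine lt_of_le_of_lt mk_image_le ?_
      exact lt_of_le_of_lt (mk_preimage_of_injective _ _ (e ξ).injective) (hGb n)
    · by_cases h : #(C ξ) < b n
      · have : {ζ | ζ ∈ C ξ ∧ #(C ξ) < b n} = C ξ := by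
          ext ζ
          simp [h]
        rw [this]
        exact h
      · have : {ζ | ζ ∈ C ξ ∧ #(C ξ) < b n} = ∅ := by
          ext ζ
          simp [h]
        rw [this]
        simpa using (hbreg n).pos
  let f : (succ β).ord.ToType → ℕ → Ordinal.{0} := fun ξ n =>
    haveI := hwf n
    IsWellFounded.rank (r n) ξ
  have hflt : ∀ ξ n, f ξ n < β.ord := by
    intro ξ n
    haveI := hwf n
    exact lt_of_lt_of_le (rank_lt_of_few (r n) (hbreg n) (hfew n) ξ) (ord_mono (hble n))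
  have hfr : ∀ n ζ ξ, r n ζ ξ → f ζ n < f ξ n := by
    intro n ζ ξ h
    haveI := hwf n
    exact IsWellFounded.rank_lt_of_rel h
  have hfev : ∀ ζ ξ, ζ < ξ → ∃ m, ∀ n, m ≤ n → f ζ n < f ξ n := by
    intro ζ ξ h
    obtain ⟨m, hm⟩ := hG' (e ξ ⟨ζ, h⟩)
    exact ⟨m, fun n hn => hfr n ζ ξ ⟨h, Or.inl (hm.trans (hG hn))⟩⟩
  refine ⟨fun ξ n => Ordinal.ToType.mk ⟨f ξ n, hflt ξ n⟩, ?_, ?_⟩
  · have hne : ∀ ζ ξ, ζ < ξ → (fun n => (Ordinal.ToType.mk ⟨f ζ n, hflt ζ n⟩ : β.ord.ToType)) ≠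
        fun n => Ordinal.ToType.mk ⟨f ξ n, hflt ξ n⟩ := by
      intro ζ ξ h e
      obtain ⟨m, hm⟩ := hfev ζ ξ h
      have e1 := congrFun e m
      have e2 := (Ordinal.ToType.mk (o := β.ord)).injective e1
      have e3 : f ζ m = f ξ m := congrArg Subtype.val e2
      exact (hm m le_rfl).ne e3
    intro ζ ξ e
    rcases lt_trichotomy ζ ξ with h | h | h
    · exact absurd e (hne ζ ξ h)
    · exact h
    · exact absurd e.symm (hne ξ ζ h)
  intro κ hκ hκβ C' hC' 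
  by_contra hbig
  obtain ⟨A, hAsub, hA⟩ := le_mk_iff_exists_subset.1 (not_lt.1 hbig)
  have hAunc : ¬ Sm κ A := by
    unfold Sm
    rw [hA]
    exact lt_irrefl _
  -- δ
  have hexδ : ∃ γ, ¬ Sm κ (A ∩ Iio γ) := by
    have hbd : ∃ γ : (succ β).ord.ToType, ∀ ξ ∈ A, ξ < γ := by
      by_contra hun
      push Not at hun
      have hcofinal : IsCofinal A := fun γ => by
        obtain ⟨ξ, hξ, hγ⟩ := hun γ
        exact ⟨ξ, hξ, hγ⟩
      have h1 := Order.cof_le hcofinal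
      rw [Ordinal.cof_toType, (isRegular_succ hβ.le).cof_ord, hA] at h1
      exact absurd (lt_succ_of_le hκβ) (not_lt.2 h1)
    obtain ⟨γ, hγ⟩ := hbd
    refine ⟨γ, ?_⟩
    have : A ∩ Iio γ = A := by
      ext ξ
      constructor
      · exact fun h => h.1
      · exact fun h => ⟨h, hγ ξ h⟩
    rw [this]
    exact hAunc
  obtain ⟨δ, hδ, hδmin⟩ := wellFounded_lt.has_min {γ | ¬ Sm κ (A ∩ Iio γ)} hexδ
  have hbelow : ∀ γ < δ, Sm κ (A ∩ Iio γ) := by
    intro γ hγ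
    by_contra h
    exact hδmin γ h hγ
  have hbelow' : ∀ γ < δ, Sm κ (A ∩ Iic γ) := by
    intro γ hγ
    refine (hκ.union (hbelow γ hγ) (hκ.countable (countable_singleton γ))).mono ?_
    rintro ξ ⟨h1, h2⟩
    rcases (show ξ ≤ γ from h2).lt_or_eq with h | h
    · exact Or.inl ⟨h1, h⟩
    · exact Or.inr h
  -- no small cofinal set
  have hnocof : ∀ S : Set (succ β).ord.ToType, Sm κ S → S ⊆ Iio δ →
      ∃ γ < δ, ∀ s ∈ S, s < γ := by
    intro S hS hSδ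
    by_contra hcon
    push Not at hcon
    apply hδ
    have : A ∩ Iio δ ⊆ ⋃ s ∈ S, (A ∩ Iic s) := by
      rintro ξ ⟨h1, h2⟩
      obtain ⟨s, hs, hξs⟩ := hcon ξ h2
      simp only [mem_iUnion]
      exact ⟨s, hs, h1, hξs⟩
    exact (hκ.biUnion hS fun s hs => hbelow' s (hSδ hs)).mono this
  have hδlim : IsSuccLimit δ := by
    rw [isSuccLimit_iff]
    constructor
    · intro hmin
      apply hδ
      have : A ∩ Iio δ = ∅ := by
        ext ξ
        simp only [mem_inter_iff, mem_Iio, mem_empty_iff_false, iff_false, not_and, not_lt]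
        intro _
        exact hmin.not_lt |> fun h => not_lt.1 h
      rw [this]
      exact hκ.countable countable_empty
    · intro γ hγ
      apply hδ
      refine (hbelow' γ hγ.lt).mono ?_
      rintro ξ ⟨h1, h2⟩
      exact ⟨h1, hγ.le_of_lt h2⟩
  obtain ⟨hC1, hC2, hC3, hC4⟩ := hC δ hδlim
  -- size of C δ
  have hCcard : #(C δ) < β := by
    have hle : #(C δ) ≤ β := by
      have := Ordinal.card_le_card hC4
      simpa using this
    rcases hle.lt_or_eq with h | h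
    · exact h
    · exfalso
      have htype : Ordinal.type (fun x y : C δ => x < y) = β.ord := by
        apply le_antisymm hC4
        calc β.ord = (#(C δ)).ord := (congrArg ord h).symm
          _ ≤ _ := ord_le_type _
      have h1 : Ordinal.type (fun x y : C δ => x < y) =
          Ordinal.type (fun x y : β.ord.ToType => x < y) := by
        rw [htype]
        exact (Ordinal.type_toType _).symm
      obtain ⟨φ⟩ := Ordinal.type_eq.1 h1
      obtain ⟨γ, hγ, hγ'⟩ := hnocof (range (fun n => (φ.symm (G n)).1))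
        (hκ.countable (countable_range _)) (by
        rintro _ ⟨n, rfl⟩
        exact hC1 (φ.symm (G n)).2)
      obtain ⟨ζ, hζ, hζγ⟩ := hC2 γ hγ
      obtain ⟨n, hn⟩ := hG' (φ ⟨ζ, hζ⟩)
      have h2 : (φ.symm (G n)).1 < ζ := (hγ' _ ⟨n, rfl⟩).trans hζγ
      have h3 : φ (φ.symm (G n)) < φ ⟨ζ, hζ⟩ := φ.map_rel_iff.2 (Subtype.mk_lt_mk.2 h2)
      rw [RelIso.apply_symm_apply] at h3
      exact absurd h3 (not_lt.2 hn)
  obtain ⟨N, hN⟩ := hblim _ hCcard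
  -- limit points
  let D : Set (succ β).ord.ToType := {γ | γ < δ ∧ IsLimPt (C δ) γ}
  have hDunb : ∀ ξ < δ, ∃ γ ∈ D, ξ < γ := by
    intro ξ hξ
    -- build a sequence
    have hstep : ∀ ζ : Iio δ, ∃ ζ' : Iio δ, ζ'.1 ∈ C δ ∧ ζ.1 < ζ'.1 := by
      rintro ⟨ζ, hζ⟩
      obtain ⟨ζ', h1, h2⟩ := hC2 ζ hζ
      exact ⟨⟨ζ', hC1 h1⟩, h1, h2⟩
    choose nx hnx1 hnx2 using hstep
    let z : ℕ → Iio δ := fun n => Nat.rec ⟨ξ, hξ⟩ (fun _ w => nx w) n
    have hz1 : ∀ n, z (n + 1) = nx (z n) := fun n => rfl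
    obtain ⟨γ₀, hγ₀, hγ₀'⟩ := hnocof (range (fun n => (z n).1)) (hκ.countable (countable_range _)) (by
      rintro _ ⟨n, rfl⟩
      exact (z n).2)
    obtain ⟨γ, hγ, hγmin⟩ := wellFounded_lt.has_min
      {γ : (succ β).ord.ToType | ∀ n, (z n).1 < γ} ⟨γ₀, fun n => hγ₀' _ ⟨n, rfl⟩⟩
    have hγδ : γ < δ := by
      refine lt_of_le_of_lt ?_ hγ₀
      by_contra h
      rw [not_le] at h
      exact hγmin γ₀ (fun n => hγ₀' _ ⟨n, rfl⟩) h
    have hlp : ∀ ξ' < γ, ∃ ζ ∈ C δ, ξ' < ζ ∧ ζ < γ := by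
      intro ξ' hξ'
      have : ¬ ∀ n, (z n).1 < ξ' := fun h => hγmin ξ' h hξ'
      push Not at this
      obtain ⟨n, hn⟩ := this
      refine ⟨(z (n + 1)).1, ?_, ?_, hγ (n + 1)⟩
      · rw [hz1]
        exact hnx1 _
      · refine lt_of_le_of_lt hn ?_
        rw [hz1]
        exact hnx2 _
    refine ⟨γ, ⟨hγδ, ?_, hlp⟩, hγ 0⟩
    rw [isSuccLimit_iff]
    constructor
    · intro hmin
      exact hmin.not_lt (hγ 0)
    · intro ξ' hξ'
      obtain ⟨ζ, _, h1, h2⟩ := hlp ξ' hξ'.lt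
      exact hξ'.2 h1 h2
  have hDlt : ∀ γ ∈ D, ∀ γ' ∈ D, γ < γ' → ∀ n, N ≤ n → f γ n < f γ' n := by
    intro γ hγ γ' hγ' hlt n hn
    apply hfr
    refine ⟨hlt, Or.inr ?_⟩
    have h1 := hC3 γ hγ.1 hγ.2
    have h2 := hC3 γ' hγ'.1 hγ'.2
    rw [h2.2]
    refine ⟨⟨h1.1, hlt⟩, ?_⟩
    exact lt_of_le_of_lt (mk_le_mk_of_subset inter_subset_left) (hN n hn)
  have hDle : ∀ γ ∈ D, ∀ γ' ∈ D, γ ≤ γ' → ∀ n, N ≤ n → f γ n ≤ f γ' n := by
    intro γ hγ γ' hγ' hle n hn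
    rcases hle.lt_or_eq with h | h
    · exact (hDlt γ hγ γ' hγ' h n hn).le
    · rw [h]
  -- next elements
  have hnextA : ∀ γ < δ, ∃ a ∈ A, γ < a ∧ a < δ := by
    intro γ hγ
    by_contra hcon
    push Not at hcon
    apply hδ
    refine (hbelow' γ hγ).mono ?_
    rintro ξ ⟨h1, h2⟩
    refine ⟨h1, ?_⟩
    rw [mem_Iic]
    by_contra h
    rw [not_le] at h
    exact absurd h2 (not_lt.2 (hcon ξ h1 h))
  haveI : Nonempty (succ β).ord.ToType := ⟨δ⟩
  choose! a haA hγa haδ using hnextA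
  choose! p hpD hap using hDunb
  have hM : ∀ γ ∈ D, ∃ m, ∀ n, m ≤ n → f γ n < f (a γ) n ∧ f (a γ) n < f (p (a γ)) n := by
    intro γ hγ
    obtain ⟨m₁, h1⟩ := hfev γ (a γ) (hγa γ hγ.1)
    obtain ⟨m₂, h2⟩ := hfev (a γ) (p (a γ)) (hap _ (haδ γ hγ.1))
    exact ⟨max m₁ m₂, fun n hn => ⟨h1 n (le_trans (le_max_left _ _) hn),
      h2 n (le_trans (le_max_right _ _) hn)⟩⟩
  choose! m hm using hM
  -- pigeonhole for unbounded sets
  have hpig : ∀ (E : Set (succ β).ord.ToType), (∀ ξ < δ, ∃ γ ∈ E, ξ < γ) → E ⊆ Iio δ →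
      ∀ (K : Type) (v : (succ β).ord.ToType → K) (V : Set K), Sm κ V →
        (∀ γ ∈ E, v γ ∈ V) → ∃ k, ∀ ξ < δ, ∃ γ ∈ {γ | γ ∈ E ∧ v γ = k}, ξ < γ := by
    intro E hE hEδ K v V hV hvV
    by_contra hcon
    push Not at hcon
    choose bd hbd1 hbd2 using hcon
    obtain ⟨γ, hγ, hγ'⟩ := hnocof (bd '' V) (hV.image _) (by
      rintro _ ⟨k, _, rfl⟩
      exact hbd1 k)
    obtain ⟨ζ, hζ, hγζ⟩ := hE γ hγ
    have h1 := hbd2 (v ζ) ζ ⟨hζ, rfl⟩
    have h2 := hγ' _ ⟨v ζ, hvV ζ hζ, rfl⟩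
    exact absurd (h2.trans hγζ) (not_lt.2 h1)
  obtain ⟨k, hk⟩ := hpig D (fun ξ hξ => ⟨p ξ, hpD ξ hξ, hap ξ hξ⟩) (fun γ hγ => hγ.1)
    ℕ m Set.univ (hκ.countable (Set.to_countable _)) (fun _ _ => mem_univ _)
  obtain ⟨v, hv⟩ := hpig {γ | γ ∈ D ∧ m γ = k} hk (fun γ hγ => hγ.1.1)
    β.ord.ToType (fun γ => Ordinal.ToType.mk ⟨f (a γ) (max N k), hflt (a γ) (max N k)⟩)
    C' hC' (by
      intro γ hγ
      exact hAsub (haA γ hγ.1.1) (max N k))
  -- pick two elements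
  obtain ⟨ξ₀, hξ₀⟩ : ∃ ξ, ξ < δ := by
    by_contra h
    push Not at h
    exact hδlim.not_isMin (fun x hx => h x)
  obtain ⟨γ, ⟨⟨hγD, hγk⟩, hγv⟩, _⟩ := hv ξ₀ hξ₀
  have hpδ : p (a γ) < δ := (hpD _ (haδ γ hγD.1)).1
  obtain ⟨γ', ⟨⟨hγ'D, hγ'k⟩, hγ'v⟩, hlt⟩ := hv _ hpδ
  have hmk : m γ ≤ max N k := by
    rw [← hγk]
    exact le_max_right _ _
  have hmk' : m γ' ≤ max N k := by
    rw [← hγ'k]
    exact le_max_right _ _
  have e1 := (hm γ hγD _ hmk).2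
  have e2 := hDle _ (hpD _ (haδ γ hγD.1)) γ' hγ'D hlt.le _ (le_max_left N k)
  have e3 := (hm γ' hγ'D _ hmk').1
  have e4 := (e1.trans_le e2).trans e3
  have e5 := (Ordinal.ToType.mk (o := β.ord)).injective (hγv.trans hγ'v.symm)
  have e6 : f (a γ) (max N k) = f (a γ') (max N k) := congrArg Subtype.val e5
  exact absurd e6 e4.ne

end Pool.Agent.Helper40.Spec
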