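import Pool.Agent.Helper40.Spec.Space
import Pool.Agent.Helper40.Spec.Square

/-!
# The tree of blocks for one cardinal
-/

set_option autoImplicit false

namespace Pool.Agent.Helper40.Spec

open Set Cardinal Order
open Pool.Agent.Helper61.Cal (Square exists_decomp mk_Iic_lt pre pre_length pre_eq_iff)

theorem pow_lt {β : Cardinal.{0}}
    (hG : ∀ κ : Cardinal.{0}, ℵ₀ ≤ κ → (2 : Cardinal.{0}) ^ κ = succ κ)
    (hβ : ℵ₀ ≤ β) (hcof : β.ord.cof = ℵ₀) {κ : Cardinal.{0}} (hκ : κ < β) :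
    (2 : Cardinal.{0}) ^ κ < β := by
  rcases lt_or_ge κ ℵ₀ with h | h
  · exact lt_of_lt_of_le (power_lt_aleph0 (by exact_mod_cast nat_lt_aleph0 2) h) hβ
  · exact Pool.Agent.Helper61.Cal.pow_lt_of_gch hG (lt_of_le_of_lt h hκ) hcof hκ

theorem exists_enum' {β : Cardinal.{0}}
    (hG : ∀ κ : Cardinal.{0}, ℵ₀ ≤ κ → (2 : Cardinal.{0}) ^ κ = succ κ)
    (hβ : ℵ₀ ≤ β) :
    ∃ x : (succ β).ord.ToType → (List β.ord.ToType × β.ord.ToType → Bool),
      Function.Surjective x := by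
  have h4 : #(β.ord.ToType) = β := by simp
  haveI : Infinite β.ord.ToType := by
    rw [infinite_iff, h4]
    exact hβ
  have h1 : #(List β.ord.ToType × β.ord.ToType → Bool) = succ β := by
    have : #(List β.ord.ToType × β.ord.ToType) = β := by
      rw [mk_prod, lift_id, lift_id, mk_list_eq_mk, h4, mul_eq_self hβ]
    simp only [← power_def, mk_bool] at *
    rw [this, hG β hβ]
  have h2 : #((succ β).ord.ToType) = #(List β.ord.ToType × β.ord.ToType → Bool) := by
    rw [h1]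
    simp
  obtain ⟨e⟩ := Cardinal.eq.1 h2
  exact ⟨e, e.surjective⟩

/-- different sequences, with few of them in small sets -/
theorem exists_seqs {β : Cardinal.{0}}
    (hG : ∀ κ : Cardinal.{0}, ℵ₀ ≤ κ → (2 : Cardinal.{0}) ^ κ = succ κ)
    (hβ : ℵ₀ ≤ β) (hcof : β.ord.cof = ℵ₀) (hsq : ℵ₀ < β → Square β) :
    ∃ F : (succ β).ord.ToType → ℕ → β.ord.ToType, Function.Injective F ∧
      ∀ κ : Cardinal.{0}, RU κ → κ ≤ β → ∀ C : Set β.ord.ToType, Sm κ C →
        Sm κ {ξ | ∀ n, F ξ n ∈ C} := by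
  rcases hβ.lt_or_eq with h | h
  · exact square_family h hcof (hsq h)
  · have h1 : #((succ β).ord.ToType) ≤ #(ℕ → β.ord.ToType) := by
      have e1 : #((succ β).ord.ToType) = succ β := by simp
      have e2 : #(ℕ → β.ord.ToType) = β ^ ℵ₀ := by simp
      rw [e1, e2, ← h, ← hG ℵ₀ le_rfl]
      exact power_le_power_right (by exact_mod_cast (nat_lt_aleph0 2).le)
    obtain ⟨F⟩ : Nonempty ((succ β).ord.ToType ↪ (ℕ → β.ord.ToType)) := h1
    refine ⟨F, F.injective, fun κ hκ hκβ => ?_⟩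
    rw [← h] at hκβ
    exact absurd hκ.unc (not_lt.2 hκβ)

/-- infinite blocks of labels at which given few colourings are constant -/
theorem exists_blocks {β : Cardinal.{0}}
    (hG : ∀ κ : Cardinal.{0}, ℵ₀ ≤ κ → (2 : Cardinal.{0}) ^ κ = succ κ)
    (hβ : ℵ₀ ≤ β) (hcof : β.ord.cof = ℵ₀)
    (c : (succ β).ord.ToType → ℕ → β.ord.ToType)
    (x : (succ β).ord.ToType → (List β.ord.ToType × β.ord.ToType → Bool)) :
    ∃ a : (succ β).ord.ToType → ℕ → ℕ → β.ord.ToType, (∀ ξ n, Function.Injective (a ξ n)) ∧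
      ∀ η ξ, η < ξ → ∃ n, ∀ j, x η (pre c ξ n, a ξ n j) = x η (pre c ξ n, a ξ n 0) := by
  have hI : ∀ ξ : (succ β).ord.ToType, #(Iio ξ) ≤ β := by
    intro ξ
    have : #(Iio ξ) < succ β := by simpa using mk_Iio_lt ξ
    exact le_of_lt_succ this
  choose D hD1 hD2 using fun ξ => exists_decomp hβ hcof (Iio ξ) (hI ξ)
  have h4 : #(β.ord.ToType) = β := by simp
  haveI : Infinite β.ord.ToType := by
    rw [infinite_iff, h4]
    exact hβ
  have hblock : ∀ ξ n, ∃ q : ℕ → β.ord.ToType, Function.Injective q ∧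
      ∀ η ∈ D ξ n, ∀ j, x η (pre c ξ n, q j) = x η (pre c ξ n, q 0) := by
    intro ξ n
    let φ : β.ord.ToType → (D ξ n → Bool) := fun b η => x η.1 (pre c ξ n, b)
    have h1 : #(D ξ n → Bool) < #(β.ord.ToType) := by
      have h2 : #(D ξ n → Bool) = (2 : Cardinal.{0}) ^ #(D ξ n) := by simp
      rw [h2, h4]
      exact pow_lt hG hβ hcof (hD2 ξ n)
    obtain ⟨v, hv⟩ := exists_infinite_fiber φ h1
    have e := Infinite.natEmbedding (φ ⁻¹' {v})
    refine ⟨fun j => (e j).1, fun i j h => e.injective (Subtype.ext h), ?_⟩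
    intro η hη j
    have h2 : φ (e j).1 = v := (e j).2
    have h3 : φ (e 0).1 = v := (e 0).2
    exact congrFun (h2.trans h3.symm) ⟨η, hη⟩
  choose q hq1 hq2 using hblock
  refine ⟨q, hq1, ?_⟩
  intro η ξ h
  have := hD1 ξ h
  rw [mem_iUnion] at this
  obtain ⟨n, hn⟩ := this
  exact ⟨n, hq2 ξ n η hn⟩

/-- The tree of blocks for `β`. -/
theorem exists_tr {β : Cardinal.{0}}
    (hG : ∀ κ : Cardinal.{0}, ℵ₀ ≤ κ → (2 : Cardinal.{0}) ^ κ = succ κ)
    (hβ : ℵ₀ ≤ β) (hcof : β.ord.cof = ℵ₀) (hsq : ℵ₀ < β → Square β) :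
    ∃ T : Tr (succ β).ord.ToType (List β.ord.ToType) β.ord.ToType,
      (∀ κ : Cardinal.{0}, RU κ → κ ≠ succ β → T.LC κ) ∧
      ∀ y : List β.ord.ToType × β.ord.ToType → Bool, Sm (succ β) {ξ | ∀ n, T.Good y ξ n} := by
  obtain ⟨c, hc, hc'⟩ := exists_seqs hG hβ hcof hsq
  obtain ⟨x, hx⟩ := exists_enum' hG hβ
  obtain ⟨a, ha, hkill⟩ := exists_blocks hG hβ hcof c x
  let T : Tr (succ β).ord.ToType (List β.ord.ToType) β.ord.ToType :=
    { node := fun ξ n => pre c ξ n
      lev := List.length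
      lev_node := fun ξ n => pre_length c ξ n
      down := fun ξ η n h => by
        rw [pre_eq_iff] at h ⊢
        exact fun i hi => h i (by omega)
      sep := fun ξ η h => by
        have h1 : c ξ ≠ c η := fun h' => h (hc h')
        obtain ⟨n, hn⟩ := Function.ne_iff.1 h1
        refine ⟨n + 1, fun h' => ?_⟩
        rw [pre_eq_iff] at h'
        exact hn (h' n (by omega))
      a := a
      inj := ha }
  have hT : ∀ ξ n, T.node ξ n = pre c ξ n := fun _ _ => rfl
  refine ⟨T, ?_, ?_⟩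
  · intro κ hκ hne K hK
    rcases lt_or_gt_of_ne hne with h | h
    · have hle : κ ≤ β := le_of_lt_succ h
      have hC : Sm κ (⋃ l ∈ K, {b : β.ord.ToType | b ∈ l}) :=
        hκ.biUnion hK fun l _ => hκ.countable (List.finite_toSet l).countable
      refine (hc' κ hκ hle _ hC).mono ?_
      intro ξ hξ n
      simp only [mem_iUnion]
      refine ⟨pre c ξ (n + 1), hξ (n + 1), ?_⟩
      change c ξ n ∈ pre c ξ (n + 1)
      unfold pre
      rw [List.mem_map]
      exact ⟨n, List.mem_range.2 (by omega), rfl⟩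
    · unfold Sm
      refine lt_of_le_of_lt (mk_set_le _) ?_
      have e1 : #((succ β).ord.ToType) = succ β := by simp
      rw [e1]
      exact h
  · intro y
    obtain ⟨η, rfl⟩ := hx y
    have hsub : {ξ | ∀ n, T.Good (x η) ξ n} ⊆ Iic η := by
      intro ξ hξ
      by_contra h
      have h1 : η < ξ := not_le.1 h
      obtain ⟨n, hn⟩ := hkill η ξ h1
      obtain ⟨j, _, hj⟩ := hξ n
      exact hj (hn j)
    exact lt_of_le_of_lt (mk_le_mk_of_subset hsub)
      (mk_Iic_lt (β := succ β) (hβ.trans (le_succ β)) η)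

end Pool.Agent.Helper40.Spec
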