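import Pool.Agent.Helper40.Spec.Space

/-!
# Sums of trees, and the open sets which show that a cardinal is not a caliber
-/

set_option autoImplicit false

namespace Pool.Agent.Helper40.Spec

open Set Cardinal Order

/-- the sum of trees -/
def sumTr {I : Type} {W N A : I → Type} (T : ∀ i, Tr (W i) (N i) (A i)) :
    Tr (Σ i, W i) (Σ i, N i) (Σ i, A i) where
  node ξ n := ⟨ξ.1, (T ξ.1).node ξ.2 n⟩
  lev ν := (T ν.1).lev ν.2
  lev_node ξ n := (T ξ.1).lev_node ξ.2 n
  down := by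
    rintro ⟨i, ξ⟩ ⟨j, η⟩ n h
    simp only [Sigma.mk.injEq] at h ⊢
    obtain ⟨rfl, h⟩ := h
    exact ⟨rfl, heq_of_eq ((T i).down ξ η n (eq_of_heq h))⟩
  sep := by
    rintro ⟨i, ξ⟩ ⟨j, η⟩ h
    by_cases hij : i = j
    · subst hij
      have h1 : ξ ≠ η := fun e => h (by rw [e])
      obtain ⟨n, hn⟩ := (T i).sep ξ η h1
      refine ⟨n, fun e => hn ?_⟩
      simp only [Sigma.mk.injEq] at e
      exact eq_of_heq e.2
    · exact ⟨0, fun e => hij (congrArg Sigma.fst e)⟩
  a ξ n j := ⟨ξ.1, (T ξ.1).a ξ.2 n j⟩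
  inj := by
    intro ξ n j k h
    simp only [Sigma.mk.injEq] at h
    exact (T ξ.1).inj ξ.2 n (eq_of_heq h.2)

theorem LC_sumTr {κ : Cardinal.{0}} (hκ : RU κ) {I : Type} {W N A : I → Type}
    (T : ∀ i, Tr (W i) (N i) (A i)) (h : ∀ i, (T i).LC κ) : (sumTr T).LC κ := by
  intro K hK
  have h1 : {ξ : Σ i, W i | ∀ n, (sumTr T).node ξ n ∈ K} ⊆
      ⋃ i ∈ Sigma.fst '' K, (Sigma.mk i) '' {ξ | ∀ n, (T i).node ξ n ∈ (Sigma.mk i) ⁻¹' K} := by
    rintro ⟨i, ξ⟩ hξ
    simp only [mem_iUnion]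
    exact ⟨i, ⟨_, hξ 0, rfl⟩, ξ, hξ, rfl⟩
  refine (hκ.biUnion (hK.image _) fun i _ => Sm.image (h i _ ?_) _).mono h1
  exact lt_of_le_of_lt (mk_preimage_of_injective _ _ sigma_mk_injective) hK

theorem good_sumTr {I : Type} {W N A : I → Type} (T : ∀ i, Tr (W i) (N i) (A i))
    (y : (Σ i, N i) × (Σ i, A i) → Bool) (i : I) (ξ : W i) (n : ℕ) :
    (sumTr T).Good y ⟨i, ξ⟩ n ↔ (T i).Good (fun v => y (⟨i, v.1⟩, ⟨i, v.2⟩)) ξ n := Iff.rfl

namespace Tr

variable {W N A : Type} (T : Tr W N A)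

/-- the open set of a branch -/
def br (ξ : W) : Set T.XS := {s | s.1.1 ξ = true}

theorem isOpen_br (ξ : W) : IsOpen (T.br ξ) := by
  have hcont : Continuous (fun s : T.XS => s.1.1 ξ) := by fun_prop
  exact (isOpen_discrete {true}).preimage hcont

open Classical in
theorem br_nonempty (ξ : W) : (T.br ξ).Nonempty := by
  refine ⟨⟨(fun η => decide (η = ξ), fun v => decide (∃ n, v = T.pt ξ n 0)), ?_⟩, ?_⟩
  · intro η hη n
    simp only [decide_eq_true_eq] at hη
    subst hη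
    refine ⟨1, by omega, ?_⟩
    have h1 : decide (∃ n', T.pt η n 0 = T.pt η n' 0) = true := by
      rw [decide_eq_true_eq]
      exact ⟨n, rfl⟩
    have h2 : decide (∃ n', T.pt η n 1 = T.pt η n' 0) = false := by
      rw [decide_eq_false_iff_not]
      rintro ⟨n', heq⟩
      simp only [pt, Prod.mk.injEq] at heq
      obtain ⟨he1, he2⟩ := heq
      have hlen : n = n' := by
        have := congrArg T.lev he1
        simpa [T.lev_node] using this
      subst hlen
      exact absurd (T.inj η n he2) (by omega)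
    simp only [h1, h2]
    simp
  · simp [br]

end Tr

end Pool.Agent.Helper40.Spec
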