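import Pool.Agent.Helper40.Spec.Sing
import Pool.Agent.Helper40.Spec.One
import Pool.Agent.Helper40.Spec.Sum

/-!
# Calibers and cofinalities
-/

set_option autoImplicit false

namespace Pool.Agent.Helper40.Spec

open Set Cardinal Order
open Pool.Agent.Helper61.Cal (Square mk_Iic_lt)

/-- `X` has caliber `κ`: among any `κ` non-empty open sets there are `κ` with a common point. -/
def HasCal (X : Type) [TopologicalSpace X] (κ : Cardinal.{0}) : Prop :=
  ∀ (ι : Type), #ι = κ → ∀ U : ι → Set X, (∀ i, IsOpen (U i) ∧ (U i).Nonempty) →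
    ∃ B : Set ι, #B = κ ∧ (⋂ i ∈ B, U i).Nonempty

/-- Calibers pass to the cofinality. -/
theorem HasCal.cof {X : Type} [TopologicalSpace X] {κ : Cardinal.{0}} (hκ : ℵ₀ ≤ κ)
    (h : HasCal X κ) : HasCal X κ.ord.cof := by
  intro ι hι U hU
  obtain ⟨s, hs, hs'⟩ := exists_cof_eq κ.ord.ToType
  rw [Ordinal.cof_toType] at hs'
  obtain ⟨e⟩ := Cardinal.eq.1 (hs'.trans hι.symm)
  choose g hg hg' using hs
  let f : κ.ord.ToType → ι := fun x => e ⟨g x, hg x⟩
  obtain ⟨B, hB, p, hp⟩ := h κ.ord.ToType (by simp) (fun x => U (f x)) (fun x => hU (f x))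
  refine ⟨f '' B, le_antisymm ?_ ?_, p, ?_⟩
  · rw [← hι]
    exact mk_set_le _
  · by_contra hlt
    rw [not_le] at hlt
    have h1 : #(g '' B) ≤ #(f '' B) := by
      have h2 : g '' B = (fun i => (e.symm i).1) '' (f '' B) := by
        rw [image_image]
        refine image_congr fun x _ => ?_
        simp [f]
      rw [h2]
      exact mk_image_le
    have h3 : ¬ IsCofinal (g '' B) := by
      intro h4
      have h5 := Order.cof_le h4
      rw [Ordinal.cof_toType] at h5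
      exact absurd (lt_of_le_of_lt (h5.trans h1) hlt) (lt_irrefl _)
    unfold IsCofinal at h3
    push Not at h3
    obtain ⟨z, hz⟩ := h3
    have h6 : B ⊆ Iic z := fun x hx => (hg' x).trans (hz _ ⟨x, hx, rfl⟩).le
    have h7 := mk_le_mk_of_subset h6
    rw [hB] at h7
    exact absurd (lt_of_le_of_lt h7 (mk_Iic_lt hκ z)) (lt_irrefl _)
  · simp only [mem_iInter] at hp ⊢
    rintro _ ⟨x, hx, rfl⟩
    exact hp x hx

/-- Infinite Hausdorff spaces do not have caliber `ω`. -/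
theorem not_hasCal_aleph0 {X : Type} [TopologicalSpace X] [T2Space X] [Infinite X] :
    ¬ HasCal X ℵ₀ := by
  intro h
  obtain ⟨U, hU, hU', hd⟩ := exists_seq_infinite_isOpen_pairwise_disjoint X
  obtain ⟨B, hB, p, hp⟩ := h ℕ mk_nat U (fun n => ⟨hU' n, (hU n).nonempty⟩)
  have h1 : B.Subsingleton := by
    intro n hn m hm
    by_contra hne
    simp only [mem_iInter] at hp
    exact Set.disjoint_left.1 (hd hne) (hp n hn) (hp m hm)
  have h2 : #B ≤ 1 := mk_le_one_iff_set_subsingleton.2 h1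
  rw [hB] at h2
  exact absurd h2 (not_le.2 one_lt_aleph0)

theorem succ_lt_of_cof_lt {κ : Cardinal.{0}} (hκ : ℵ₀ ≤ κ) (hs : κ.ord.cof < κ) {μ : Cardinal.{0}}
    (hμ : μ < κ) : succ μ < κ := by
  refine lt_of_le_of_ne (succ_le_of_lt hμ) ?_
  rintro rfl
  rcases lt_or_ge μ ℵ₀ with h | h
  · obtain ⟨n, rfl⟩ := lt_aleph0.1 h
    rw [succ_natCast] at hκ
    exact absurd (by exact_mod_cast natCast_lt_aleph0 (n := n + 1)) (not_lt.2 hκ)
  · rw [(isRegular_succ h).cof_ord] at hs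
    exact absurd hs (lt_irrefl _)

/-- A cofinal family of smaller cardinals. -/
theorem exists_cofinal {κ : Cardinal.{0}} (hκ : ℵ₀ ≤ κ) (hs : κ.ord.cof < κ) :
    ∃ (Λ : Type) (c : Λ → Cardinal.{0}), #Λ = κ.ord.cof ∧ (∀ j, c j < κ) ∧
      ∀ μ < κ, #{j | c j ≤ μ} < κ.ord.cof := by
  obtain ⟨s, hs1, hs2⟩ := Ordinal.exists_ord_cof_eq κ.ord.ToType
  rw [Ordinal.cof_toType] at hs2
  have hs3 : #s = κ.ord.cof := by
    rw [← Ordinal.card_type (α := s) (· < ·), hs2, card_ord]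
  refine ⟨s, fun j => #(Iio j.1), hs3, fun j => by simpa using mk_Iio_lt j.1, ?_⟩
  intro μ hμ
  have h1 : (succ μ).ord < κ.ord := ord_lt_ord.2 (succ_lt_of_cof_lt hκ hs hμ)
  have h1' : (succ μ).ord < Ordinal.type (fun x y : κ.ord.ToType => x < y) := by
    rwa [Ordinal.type_toType]
  obtain ⟨x, hx⟩ : ∃ x : κ.ord.ToType, #(Iio x) = succ μ := by
    refine ⟨Ordinal.enum (α := κ.ord.ToType) (· < ·) ⟨(succ μ).ord, h1'⟩, ?_⟩
    refine (Ordinal.card_typein (r := fun x y : κ.ord.ToType => x < y) _).symm.trans ?_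
    rw [Ordinal.typein_enum, card_ord]
  obtain ⟨y, hy, hxy⟩ := hs1 x
  have h2 : {j : s | #(Iio j.1) ≤ μ} ⊆ Iio ⟨y, hy⟩ := by
    intro j hj
    by_contra hcon
    have h3 : x ≤ j.1 := hxy.trans (not_lt.1 hcon)
    have h4 : #(Iio x) ≤ #(Iio j.1) := mk_le_mk_of_subset (Iio_subset_Iio h3)
    rw [hx] at h4
    exact absurd (lt_succ μ) (not_lt.2 (h4.trans hj))
  refine lt_of_le_of_lt (mk_le_mk_of_subset h2) ?_
  rw [← hs3]
  exact mk_Iio_lt _ (by rw [hs3, hs2])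

open Classical in
theorem Tr.infinite_XS {W N A : Type} (T : Tr W N A) (ξ : W) : Infinite T.XS := by
  let f : ℕ → T.XS := fun n => ⟨(fun _ => false, fun v => decide (v = T.pt ξ 0 n)),
    fun η hη => absurd hη (by simp)⟩
  refine Infinite.of_injective f fun n m h => ?_
  have h1 : (f n).1.2 (T.pt ξ 0 n) = (f m).1.2 (T.pt ξ 0 n) := by rw [h]
  have h2 : decide (T.pt ξ 0 n = T.pt ξ 0 n) = decide (T.pt ξ 0 n = T.pt ξ 0 m) := h1
  rw [decide_eq_decide] at h2
  have h3 := h2.1 rfl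
  simp only [Tr.pt, Prod.mk.injEq] at h3
  exact T.inj ξ 0 h3.2

/-- The caliber spectrum of a sum of the trees of `exists_tr`. -/
theorem spectrum (hG : ∀ κ : Cardinal.{0}, ℵ₀ ≤ κ → (2 : Cardinal.{0}) ^ κ = succ κ)
    {I : Type} (β : I → Cardinal.{0}) (hβ : ∀ i, ℵ₀ ≤ β i) (hcof : ∀ i, (β i).ord.cof = ℵ₀)
    (T : ∀ i, Tr (succ (β i)).ord.ToType (List (β i).ord.ToType) (β i).ord.ToType)
    (hT : ∀ i, ∀ κ : Cardinal.{0}, RU κ → κ ≠ succ (β i) → (T i).LC κ)
    (hT' : ∀ i, ∀ y : List (β i).ord.ToType × (β i).ord.ToType → Bool,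
      Sm (succ (β i)) {ξ | ∀ n, (T i).Good y ξ n})
    (hinf : Infinite (sumTr T).XS) (κ : Cardinal.{0}) (hκ : ℵ₀ ≤ κ) :
    HasCal (sumTr T).XS κ ↔ κ.ord.cof ≠ ℵ₀ ∧ ∀ i, κ.ord.cof ≠ succ (β i) := by
  have hcoflim : ℵ₀ ≤ κ.ord.cof := by
    rw [Ordinal.aleph0_le_cof_iff, Ordinal.one_lt_cof_iff]
    exact isSuccLimit_ord hκ
  have hLCθ : ∀ θ : Cardinal.{0}, RU θ → (∀ i, θ ≠ succ (β i)) → (sumTr T).LC θ :=
    fun θ hθ h => LC_sumTr hθ T fun i => hT i θ hθ (h i)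
  constructor
  · intro h
    have h1 := h.cof hκ
    refine ⟨fun e => ?_, fun i e => ?_⟩
    · rw [e] at h1
      exact not_hasCal_aleph0 h1
    · rw [e] at h1
      obtain ⟨B, hB, s, hs⟩ := h1 (succ (β i)).ord.ToType (by simp)
        (fun ξ => (sumTr T).br ⟨i, ξ⟩) (fun ξ => ⟨(sumTr T).isOpen_br _, (sumTr T).br_nonempty _⟩)
      simp only [mem_iInter] at hs
      have h2 : B ⊆ {ξ | ∀ n, (T i).Good (fun v => s.1.2 (⟨i, v.1⟩, ⟨i, v.2⟩)) ξ n} := by
        intro ξ hξ n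
        exact (good_sumTr T s.1.2 i ξ n).1 (s.2 ⟨i, ξ⟩ (hs ξ hξ) n)
      have h3 := (hT' i _).mono h2
      unfold Sm at h3
      rw [hB] at h3
      exact absurd h3 (lt_irrefl _)
  · rintro ⟨h0, h1⟩ ι hι U hU
    have hunc : ℵ₀ < κ.ord.cof := lt_of_le_of_ne hcoflim (Ne.symm h0)
    have hreg : (κ.ord.cof).IsRegular := ⟨hcoflim, by rw [Ordinal.cof_ord_cof]⟩
    have hRU : RU κ.ord.cof := ⟨hreg, hunc⟩
    have hLC := hLCθ _ hRU h1
    rcases (Ordinal.cof_ord_le κ).lt_or_eq with hlt | heq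
    · obtain ⟨Λ, c, hΛ, hc, hc'⟩ := exists_cofinal hκ hlt
      let θ : Λ → Cardinal.{0} := fun j => succ (succ (max κ.ord.cof (c j)))
      have hmax : ∀ j, ℵ₀ ≤ max κ.ord.cof (c j) := fun j => hcoflim.trans (le_max_left _ _)
      have hθreg : ∀ j, (θ j).IsRegular := fun j => isRegular_succ ((hmax j).trans (le_succ _))
      have hθl : ∀ j, κ.ord.cof < θ j := fun j =>
        lt_of_le_of_lt (le_max_left _ _) ((lt_succ _).trans (lt_succ _))
      have hθ : ∀ j, RU (θ j) := fun j => ⟨hθreg j, hunc.trans (hθl j)⟩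
      have hθκ : ∀ j, θ j < κ := fun j =>
        succ_lt_of_cof_lt hκ hlt (succ_lt_of_cof_lt hκ hlt (max_lt hlt (hc j)))
      have hθne : ∀ j i, θ j ≠ succ (β i) := by
        intro j i e
        have e1 : succ (max κ.ord.cof (c j)) = β i := succ_injective e
        have e2 := hcof i
        rw [← e1, (isRegular_succ (hmax j)).cof_ord] at e2
        exact absurd (lt_of_le_of_lt (hmax j) (lt_succ _)) (by rw [e2]; exact lt_irrefl _)
      have hex : ∀ j, ∃ S : Set ι, #S = θ j := fun j =>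
        le_mk_iff_exists_set.1 (by rw [hι]; exact (hθκ j).le)
      choose S hS using hex
      have hμ : ∀ μ < κ, Sm κ.ord.cof {j | θ j ≤ μ} := by
        intro μ hμ
        refine lt_of_le_of_lt (mk_le_mk_of_subset ?_) (hc' μ hμ)
        intro j hj
        have h3 : c j ≤ θ j := (le_max_right κ.ord.cof (c j)).trans ((le_succ _).trans (le_succ _))
        have h4 : θ j ≤ μ := hj
        exact h3.trans h4
      obtain ⟨J, hJ, hJ'⟩ := (sumTr T).caliber_sing (κ := κ) hRU hLC (Λ := Λ)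
        (by unfold Sm; rw [mk_univ, hΛ]; exact lt_irrefl _) hΛ.le θ hθ
        (fun j => hLCθ _ (hθ j) (hθne j)) hθl hμ S hS U hU
      exact ⟨J, le_antisymm (by rw [← hι]; exact mk_set_le _) hJ, hJ'⟩
    · rw [heq] at hRU hLC
      obtain ⟨J, -, hJ, hJ'⟩ := (sumTr T).caliber_XS hRU hLC (univ : Set ι)
        (by unfold Sm; rw [mk_univ, hι]; exact lt_irrefl _) U hU
      exact ⟨J, le_antisymm (by rw [← hι]; exact mk_set_le _) (not_lt.1 hJ), hJ'⟩

end Pool.Agent.Helper40.Spec
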