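import Pool.Agent.Helper40.Spec.Space

/-!
# Common points of basic open sets
-/

set_option autoImplicit false

namespace Pool.Agent.Helper40.Spec

open Set Cardinal

namespace Tr

variable {W N A : Type} (T : Tr W N A) {ι : Type}

/-- the branches which are in the set of the point `s i` and which are relevant for the
neighbourhood with index `i` -/
def FF (s : ι → T.XS) (t : ι → Finset W) (i : ι) : Finset W :=
  (t i).filter (fun ξ => (s i).1.1 ξ = true)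

open Classical in
/-- the coordinates which are relevant for the neighbourhood with index `i`, up to level `M` -/
noncomputable def DD (s : ι → T.XS) (t : ι → Finset W) (d : ι → Finset (N × A)) (M : ℕ) (i : ι) :
    Finset (N × A) :=
  d i ∪ (T.FF s t i).biUnion (fun ξ => (Finset.range M).biUnion (fun n =>
      (Finset.range (n + 2)).image (fun j => T.pt ξ n j)))

theorem mem_DD_left {s : ι → T.XS} {t : ι → Finset W} {d : ι → Finset (N × A)} {M : ℕ} {i : ι}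
    {v : N × A} (hv : v ∈ d i) : v ∈ T.DD s t d M i := by
  classical
  simp only [DD, Finset.mem_union]
  exact Or.inl hv

theorem mem_DD_pt {s : ι → T.XS} {t : ι → Finset W} {d : ι → Finset (N × A)} {M : ℕ} {i : ι}
    {ξ : W} (hξ : ξ ∈ T.FF s t i) {n j : ℕ} (hn : n < M) (hj : j ≤ n + 1) :
    T.pt ξ n j ∈ T.DD s t d M i := by
  classical
  simp only [DD, Finset.mem_union, Finset.mem_biUnion, Finset.mem_image, Finset.mem_range]
  exact Or.inr ⟨ξ, hξ, n, hn, j, by omega, rfl⟩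

theorem lev_DD {s : ι → T.XS} {t : ι → Finset W} {d : ι → Finset (N × A)} {M : ℕ} {i : ι}
    (hd : ∀ v ∈ d i, T.lev v.1 < M) {v : N × A} (hv : v ∈ T.DD s t d M i) : T.lev v.1 < M := by
  classical
  simp only [DD, Finset.mem_union, Finset.mem_biUnion, Finset.mem_image,
    Finset.mem_range] at hv
  rcases hv with hv | ⟨ξ, hξ, n, hn, j, hj, rfl⟩
  · exact hd v hv
  · simp only [pt, T.lev_node]
    exact hn

/-- A common point of a family of basic open sets. -/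
theorem common (s : ι → T.XS) (t : ι → Finset W) (d : ι → Finset (N × A)) (J : Set ι) (M : ℕ)
    (hd : ∀ i ∈ J, ∀ v ∈ d i, T.lev v.1 < M)
    (hJsep : ∀ i ∈ J, ∀ j ∈ J, ∀ ξ ∈ T.FF s t i, ∀ η ∈ T.FF s t j,
      T.node ξ M = T.node η M → ξ = η)
    (hJcomp1 : ∀ i ∈ J, ∀ j ∈ J, ∀ ξ, ξ ∈ t i → ξ ∈ t j → (s i).1.1 ξ = (s j).1.1 ξ)
    (hJcomp2 : ∀ i ∈ J, ∀ j ∈ J, ∀ v, v ∈ T.DD s t d M i → v ∈ T.DD s t d M j →
      (s i).1.2 v = (s j).1.2 v) :
    ∃ u : T.XS, ∀ i ∈ J, (∀ ξ ∈ t i, u.1.1 ξ = (s i).1.1 ξ) ∧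
      ∀ v ∈ d i, u.1.2 v = (s i).1.2 v := by
  classical
  let S : W → Bool := fun ξ => decide (∃ i ∈ J, ξ ∈ T.FF s t i)
  let y : N × A → Bool := fun v =>
    if h : ∃ i ∈ J, v ∈ T.DD s t d M i then (s h.choose).1.2 v
    else decide (∃ ξ n, M ≤ n ∧ (∃ i ∈ J, ξ ∈ T.FF s t i) ∧ v = T.pt ξ n 0)
  have hyT : ∀ i ∈ J, ∀ v ∈ T.DD s t d M i, y v = (s i).1.2 v := by
    intro i hi v hv
    have h : ∃ i ∈ J, v ∈ T.DD s t d M i := ⟨i, hi, hv⟩
    simp only [y, dif_pos h]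
    exact hJcomp2 _ h.choose_spec.1 i hi v h.choose_spec.2 hv
  have hylow : ∀ v : N × A, M ≤ T.lev v.1 → y v = decide (∃ ξ n, M ≤ n ∧
      (∃ i ∈ J, ξ ∈ T.FF s t i) ∧ v = T.pt ξ n 0) := by
    intro v hv
    have h : ¬ ∃ i ∈ J, v ∈ T.DD s t d M i := by
      rintro ⟨i, hi, hvi⟩
      have := T.lev_DD (hd i hi) hvi
      omega
    simp only [y, dif_neg h]
  have hX : ((S, y) : (W → Bool) × (N × A → Bool)) ∈ T.XS := by
    intro ξ hξ n
    simp only [S, decide_eq_true_eq] at hξ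
    obtain ⟨i, hi, hξi⟩ := hξ
    by_cases hn : n < M
    · have hmem : ∀ j ≤ n + 1, T.pt ξ n j ∈ T.DD s t d M i := fun j hj => T.mem_DD_pt hξi hn hj
      obtain ⟨j, hj, h1⟩ := (s i).2 ξ (Finset.mem_filter.1 hξi).2 n
      refine ⟨j, hj, ?_⟩
      change y _ ≠ y _
      rw [hyT i hi _ (hmem j hj), hyT i hi _ (hmem 0 (by omega))]
      exact h1
    · push Not at hn
      refine ⟨1, by omega, ?_⟩
      change y _ ≠ y _
      rw [hylow _ (by simpa [pt, T.lev_node] using hn),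
        hylow _ (by simpa [pt, T.lev_node] using hn)]
      have h1 : decide (∃ ξ' n', M ≤ n' ∧ (∃ i ∈ J, ξ' ∈ T.FF s t i) ∧
          T.pt ξ n 0 = T.pt ξ' n' 0) = true := by
        rw [decide_eq_true_eq]
        exact ⟨ξ, n, hn, ⟨i, hi, hξi⟩, rfl⟩
      have h2 : decide (∃ ξ' n', M ≤ n' ∧ (∃ i ∈ J, ξ' ∈ T.FF s t i) ∧
          T.pt ξ n 1 = T.pt ξ' n' 0) = false := by
        rw [decide_eq_false_iff_not]
        rintro ⟨ξ', n', hn', ⟨j, hj, hξ'⟩, heq⟩
        simp only [pt, Prod.mk.injEq] at heq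
        obtain ⟨he1, he2⟩ := heq
        have hlen : n = n' := by
          have := congrArg T.lev he1
          simpa [T.lev_node] using this
        subst hlen
        have := hJsep i hi j hj ξ hξi ξ' hξ' (T.mono hn he1)
        subst this
        exact absurd (T.inj ξ n he2) (by omega)
      rw [h1, h2]
      simp
  refine ⟨⟨(S, y), hX⟩, fun i hi => ⟨?_, fun v hv => hyT i hi v (T.mem_DD_left hv)⟩⟩
  intro ξ hξ
  simp only [S]
  by_cases hsi : (s i).1.1 ξ = true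
  · rw [hsi, decide_eq_true_eq]
    exact ⟨i, hi, Finset.mem_filter.2 ⟨hξ, hsi⟩⟩
  · have hsf : (s i).1.1 ξ = false := by simpa using hsi
    rw [hsf, decide_eq_false_iff_not]
    rintro ⟨j, hj, hξj⟩
    rw [FF, Finset.mem_filter] at hξj
    rw [hJcomp1 i hi j hj ξ hξ hξj.1, hξj.2] at hsf
    exact absurd hsf (by simp)

/-- The space has the strong form of caliber `κ`. -/
theorem caliber_XS {κ : Cardinal.{0}} (hκ : RU κ) (hLC : T.LC κ)
    {ι : Type} (I : Set ι) (hI : ¬ Sm κ I) (U : ι → Set T.XS)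
    (hU : ∀ i, IsOpen (U i) ∧ (U i).Nonempty) :
    ∃ J, J ⊆ I ∧ ¬ Sm κ J ∧ (⋂ i ∈ J, U i).Nonempty := by
  classical
  choose s hs using fun i => (hU i).2
  choose t d htd using fun i => T.exists_basic (U i) (hU i).1 (s i) (hs i)
  let L : ι → ℕ := fun i => (d i).sup (fun v => T.lev v.1 + 1)
  obtain ⟨N₀, hJ₁⟩ := fiber hκ L I hI
  obtain ⟨J₂, hJ₂, hJ₂c, M, hN, hsep⟩ := T.separated hκ hLC (T.FF s t) _ hJ₁ N₀
  obtain ⟨J₃, hJ₃, hJ₃c, hcomp1⟩ := compatible hκ t (fun i => (s i).1.1) J₂ hJ₂c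
  obtain ⟨J, hJ, hJc, hcomp2⟩ := compatible hκ (T.DD s t d M) (fun i => (s i).1.2) J₃ hJ₃c
  have hJI : J ⊆ I := fun i hi => (hJ₂ (hJ₃ (hJ hi))).1
  have hdlen : ∀ i ∈ J, ∀ v ∈ d i, T.lev v.1 < M := by
    intro i hi v hv
    have h1 : L i = N₀ := (hJ₂ (hJ₃ (hJ hi))).2
    have h2 : T.lev v.1 + 1 ≤ L i := Finset.le_sup (f := fun v : N × A => T.lev v.1 + 1) hv
    omega
  obtain ⟨u, hu⟩ := T.common s t d J M hdlen
    (fun i hi j hj => hsep i (hJ₃ (hJ hi)) j (hJ₃ (hJ hj)))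
    (fun i hi j hj => hcomp1 i (hJ hi) j (hJ hj)) hcomp2
  refine ⟨J, hJI, hJc, u, ?_⟩
  simp only [mem_iInter]
  exact fun i hi => htd i u (hu i hi).1 (hu i hi).2

end Tr

end Pool.Agent.Helper40.Spec
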