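import Mathlib

/-!
# Laws of maps into compact spaces
-/

set_option autoImplicit false

namespace Pool.Agent.Helper40.Spec

open Set MeasureTheory Filter Topology

/-- If a separating set of continuous functions is measurable along `Φ` then all continuous
functions are. -/
theorem measurable_along {X Ω : Type} [TopologicalSpace X] [CompactSpace X] [MeasurableSpace Ω]
    (Φ : Ω → X) (h : ∀ x y : X, x ≠ y → ∃ f : C(X, ℝ), Measurable (fun ω => f (Φ ω)) ∧
      f x ≠ f y) (f : C(X, ℝ)) : Measurable (fun ω => f (Φ ω)) := by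
  let S : Subalgebra ℝ C(X, ℝ) :=
    { carrier := {f | Measurable (fun ω => f (Φ ω))}
      mul_mem' := by
        intro a b ha hb
        exact Measurable.mul ha hb
      add_mem' := by
        intro a b ha hb
        exact Measurable.add ha hb
      algebraMap_mem' := by
        intro r
        exact measurable_const }
  have hS : S.SeparatesPoints := by
    intro x y hxy
    obtain ⟨g, hg, hg'⟩ := h x y hxy
    exact ⟨g, ⟨g, hg, rfl⟩, hg'⟩
  have h1 := ContinuousMap.subalgebra_topologicalClosure_eq_top_of_separatesPoints S hS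
  have h2 : f ∈ S.topologicalClosure := by
    rw [h1]
    exact Algebra.mem_top
  have h3 : f ∈ closure (S : Set C(X, ℝ)) := h2
  rw [mem_closure_iff_seq_limit] at h3
  obtain ⟨u, hu, hlim⟩ := h3
  refine measurable_of_tendsto_metrizable (f := fun n ω => u n (Φ ω)) (fun n => hu n) ?_
  rw [tendsto_pi_nhds]
  intro ω
  exact ((continuous_eval_const (F := C(X, ℝ)) (Φ ω)).tendsto f).comp hlim

/-- The law of a map into a compact space as a regular Borel measure. -/
theorem exists_law {X Ω : Type} [TopologicalSpace X] [CompactSpace X] [T2Space X]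
    [MeasurableSpace X] [BorelSpace X] [MeasurableSpace Ω] (P : Measure Ω)
    [IsProbabilityMeasure P] (Φ : Ω → X) (hΦ : ∀ f : C(X, ℝ), Measurable (fun ω => f (Φ ω))) :
    ∃ μ : Measure X, IsProbabilityMeasure μ ∧ μ.Regular ∧
      ∀ f : C(X, ℝ), ∫ x, f x ∂μ = ∫ ω, f (Φ ω) ∂P := by
  have hint : ∀ f : C(X, ℝ), Integrable (fun ω => f (Φ ω)) P := by
    intro f
    refine Integrable.of_bound (hΦ f).aestronglyMeasurable ‖f‖ (ae_of_all _ fun ω => ?_)
    exact f.norm_coe_le_norm _
  let Λ : CompactlySupportedContinuousMap X ℝ →ₚ[ℝ] ℝ :=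
  { toFun g := ∫ ω, g (Φ ω) ∂P
    map_add' g g' := integral_add (hint g.toContinuousMap) (hint g'.toContinuousMap)
    map_smul' c g := integral_const_mul c _
    monotone' g g' hgg' := integral_mono (hint g.toContinuousMap) (hint g'.toContinuousMap)
      (fun ω => hgg' (Φ ω)) }
  have key : ∀ f : C(X, ℝ), ∫ x, f x ∂(RealRMK.rieszMeasure Λ) = ∫ ω, f (Φ ω) ∂P := by
    intro f
    let g : CompactlySupportedContinuousMap X ℝ :=
    { toFun := f
      hasCompactSupport' := HasCompactSupport.of_compactSpace _ }
    exact RealRMK.integral_rieszMeasure Λ g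
  refine ⟨RealRMK.rieszMeasure Λ, ⟨?_⟩, inferInstance, key⟩
  have h1 := key 1
  simp only [ContinuousMap.one_apply, integral_const, smul_eq_mul, mul_one, probReal_univ] at h1
  have h2 : (RealRMK.rieszMeasure Λ).real univ = 1 := h1
  rw [measureReal_def] at h2
  exact (ENNReal.toReal_eq_one_iff _).1 h2

end Pool.Agent.Helper40.Spec
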