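import Pool.Agent.Helper40.Spec.Space
import Pool.Agent.Helper40.Spec.Law

/-!
# A strictly positive measure on the space

The colouring is chosen at random, and then every branch on which it is good is chosen with
probability one half, independently.
-/

set_option autoImplicit false

namespace Pool.Agent.Helper40.Spec

open Set MeasureTheory Filter Topology

/-- a fair coin -/
noncomputable def coin : Measure Bool := (PMF.uniformOfFintype Bool).toMeasure

instance : IsProbabilityMeasure coin := PMF.toMeasure.isProbabilityMeasure _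

theorem coin_singleton (b : Bool) : coin {b} = 2⁻¹ := by
  rw [coin, PMF.toMeasure_apply_singleton _ _ (measurableSet_singleton b)]
  simp [PMF.uniformOfFintype_apply]

/-- independent fair coins -/
noncomputable def coins (ι : Type) : Measure (ι → Bool) := Measure.infinitePi fun _ => coin

instance (ι : Type) : IsProbabilityMeasure (coins ι) := by
  unfold coins
  infer_instance

/-- the set where the coins of `s` have prescribed values -/
def cyl {ι : Type} (s : Finset ι) (v : ι → Bool) : Set (ι → Bool) := {ω | ∀ i ∈ s, ω i = v i}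

theorem coins_cyl {ι : Type} (s : Finset ι) (v : ι → Bool) :
    coins ι (cyl s v) = 2⁻¹ ^ s.card := by
  have h : cyl s v = Set.pi s (fun i => {v i}) := by
    ext ω
    simp [cyl, Set.mem_pi]
  rw [h, coins, Measure.infinitePi_pi _ (fun i _ => measurableSet_singleton (v i))]
  simp [coin_singleton]

theorem measurableSet_cyl {ι : Type} (s : Finset ι) (v : ι → Bool) :
    MeasurableSet (cyl s v) := by
  have h : cyl s v = ⋂ i ∈ s, {ω : ι → Bool | ω i = v i} := by
    ext ω
    simp [cyl]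
  rw [h]
  refine Finset.measurableSet_biInter s fun i _ => ?_
  have h1 : MeasurableSet ((fun ω : ι → Bool => ω i) ⁻¹' {v i}) :=
    measurable_pi_apply i (measurableSet_singleton (v i))
  exact h1

namespace Tr

variable {W N A : Type} (T : Tr W N A)

instance : CompactSpace T.XS := isCompact_iff_compactSpace.1 T.isClosed_XS.isCompact

/-- the colouring of a sample -/
def col (ω : W ⊕ (N × A) → Bool) : N × A → Bool := fun v => ω (Sum.inr v)

open Classical in
/-- the random point of the space -/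
noncomputable def Phi (ω : W ⊕ (N × A) → Bool) : T.XS :=
  ⟨(fun ξ => decide (ω (Sum.inl ξ) = true ∧ ∀ n, T.Good (col ω) ξ n), col ω), by
    intro ξ hξ n
    simp only [decide_eq_true_eq] at hξ
    exact hξ.2 n⟩

theorem measurableSet_good (ξ : W) (n : ℕ) :
    MeasurableSet {ω : W ⊕ (N × A) → Bool | T.Good (col ω) ξ n} := by
  have h : {ω : W ⊕ (N × A) → Bool | T.Good (col ω) ξ n} =
      ⋃ j ∈ Finset.range (n + 2), {ω : W ⊕ (N × A) → Bool |
        ω (Sum.inr (T.pt ξ n j)) ≠ ω (Sum.inr (T.pt ξ n 0))} := by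
    ext ω
    simp only [mem_iUnion, Finset.mem_range, exists_prop]
    constructor
    · rintro ⟨j, hj, h⟩
      exact ⟨j, by omega, h⟩
    · rintro ⟨j, hj, h⟩
      exact ⟨j, by omega, h⟩
  rw [h]
  refine Finset.measurableSet_biUnion _ fun j _ => ?_
  have h1 : MeasurableSet {ω : W ⊕ (N × A) → Bool |
      ω (Sum.inr (T.pt ξ n j)) = ω (Sum.inr (T.pt ξ n 0))} :=
    measurableSet_eq_fun (measurable_pi_apply (Sum.inr (T.pt ξ n j)))
      (measurable_pi_apply (Sum.inr (T.pt ξ n 0)))
  exact h1.compl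

theorem measurable_Phi (f : C(T.XS, ℝ)) : Measurable (fun ω => f (T.Phi ω)) := by
  classical
  refine measurable_along T.Phi ?_ f
  intro x y hxy
  have h1 : (∃ ξ, x.1.1 ξ ≠ y.1.1 ξ) ∨ ∃ v, x.1.2 v ≠ y.1.2 v := by
    by_contra hcon
    push Not at hcon
    exact hxy (Subtype.ext (Prod.ext (funext hcon.1) (funext hcon.2)))
  rcases h1 with ⟨ξ, h⟩ | ⟨v, h⟩
  · refine ⟨⟨fun s => if s.1.1 ξ = true then 1 else 0, ?_⟩, ?_, ?_⟩
    · have hc : Continuous (fun s : T.XS => s.1.1 ξ) := by fun_prop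
      exact (continuous_of_discreteTopology (f := fun b : Bool => if b = true then (1 : ℝ) else 0)).comp hc
    · have h2 : MeasurableSet {ω : W ⊕ (N × A) → Bool |
          ω (Sum.inl ξ) = true ∧ ∀ n, T.Good (col ω) ξ n} := by
        refine MeasurableSet.inter ?_ ?_
        · have h5 : MeasurableSet ((fun ω : W ⊕ (N × A) → Bool => ω (Sum.inl ξ)) ⁻¹' {true}) :=
            measurable_pi_apply (Sum.inl ξ) (measurableSet_singleton true)
          exact h5
        · have h3 : {ω : W ⊕ (N × A) → Bool | ∀ n, T.Good (col ω) ξ n} =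
              ⋂ n, {ω : W ⊕ (N × A) → Bool | T.Good (col ω) ξ n} := by
            ext ω
            simp
          change MeasurableSet {ω : W ⊕ (N × A) → Bool | ∀ n, T.Good (col ω) ξ n}
          rw [h3]
          exact MeasurableSet.iInter fun n => T.measurableSet_good ξ n
      have h4 : (fun ω => (⟨fun s : T.XS => if s.1.1 ξ = true then (1 : ℝ) else 0, by
          have hc : Continuous (fun s : T.XS => s.1.1 ξ) := by fun_prop
          exact (continuous_of_discreteTopology
            (f := fun b : Bool => if b = true then (1 : ℝ) else 0)).comp hc⟩ : C(T.XS, ℝ))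
            (T.Phi ω)) = {ω : W ⊕ (N × A) → Bool |
          ω (Sum.inl ξ) = true ∧ ∀ n, T.Good (col ω) ξ n}.indicator (fun _ => (1 : ℝ)) := by
        funext ω
        simp only [ContinuousMap.coe_mk, Phi, decide_eq_true_eq, Set.indicator]
        rfl
      rw [h4]
      exact measurable_const.indicator h2
    · simp only [ContinuousMap.coe_mk]
      cases hx : x.1.1 ξ <;> cases hy : y.1.1 ξ <;> simp_all
  · refine ⟨⟨fun s => if s.1.2 v = true then 1 else 0, ?_⟩, ?_, ?_⟩
    · have hc : Continuous (fun s : T.XS => s.1.2 v) := by fun_prop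
      exact (continuous_of_discreteTopology (f := fun b : Bool => if b = true then (1 : ℝ) else 0)).comp hc
    · have h4 : (fun ω => (⟨fun s : T.XS => if s.1.2 v = true then (1 : ℝ) else 0, by
          have hc : Continuous (fun s : T.XS => s.1.2 v) := by fun_prop
          exact (continuous_of_discreteTopology
            (f := fun b : Bool => if b = true then (1 : ℝ) else 0)).comp hc⟩ : C(T.XS, ℝ))
            (T.Phi ω)) = fun ω => if ω (Sum.inr v) = true then (1 : ℝ) else 0 := rfl
      rw [h4]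
      exact (measurable_of_finite (fun b : Bool => if b = true then (1 : ℝ) else 0)).comp
        (measurable_pi_apply (Sum.inr v))
    · simp only [ContinuousMap.coe_mk]
      cases hx : x.1.2 v <;> cases hy : y.1.2 v <;> simp_all

/-- the event that the block of a branch is constant, within a cylinder of lower levels -/
theorem bad_le (t : Finset (W ⊕ (N × A))) (v : W ⊕ (N × A) → Bool) (ξ : W) (n : ℕ)
    (ht : ∀ p : N × A, Sum.inr p ∈ t → T.lev p.1 < n) :
    coins _ (cyl t v ∩ {ω | ¬ T.Good (col ω) ξ n}) ≤ 2⁻¹ ^ t.card * 2⁻¹ ^ (n + 1) := by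
  classical
  let blk : Finset (W ⊕ (N × A)) := (Finset.range (n + 2)).image fun j => Sum.inr (T.pt ξ n j)
  have hblk : blk.card = n + 2 := by
    rw [Finset.card_image_of_injective, Finset.card_range]
    intro i j h
    have h1 := Sum.inr_injective h
    simp only [pt, Prod.mk.injEq] at h1
    exact T.inj ξ n h1.2
  have hdis : Disjoint t blk := by
    rw [Finset.disjoint_left]
    intro p hp hp'
    simp only [blk, Finset.mem_image, Finset.mem_range] at hp'
    obtain ⟨j, _, rfl⟩ := hp'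
    have := ht _ hp
    simp only [pt, T.lev_node] at this
    omega
  let w : Bool → W ⊕ (N × A) → Bool := fun b p => if p ∈ t then v p else b
  have hsub : cyl t v ∩ {ω | ¬ T.Good (col ω) ξ n} ⊆
      cyl (t ∪ blk) (w true) ∪ cyl (t ∪ blk) (w false) := by
    rintro ω ⟨h1, h2⟩
    have h3 : ∀ j ≤ n + 1, ω (Sum.inr (T.pt ξ n j)) = ω (Sum.inr (T.pt ξ n 0)) := by
      intro j hj
      by_contra h
      exact h2 ⟨j, hj, h⟩
    have h4 : ω ∈ cyl (t ∪ blk) (w (ω (Sum.inr (T.pt ξ n 0)))) := by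
      intro p hp
      by_cases hpt : p ∈ t
      · simp only [w, if_pos hpt]
        exact h1 p hpt
      · simp only [w, if_neg hpt]
        rcases Finset.mem_union.1 hp with hp | hp
        · exact absurd hp hpt
        · simp only [blk, Finset.mem_image, Finset.mem_range] at hp
          obtain ⟨j, hj, rfl⟩ := hp
          exact h3 j (by omega)
    cases hb : ω (Sum.inr (T.pt ξ n 0)) with
    | true =>
      rw [hb] at h4
      exact Or.inl h4
    | false =>
      rw [hb] at h4
      exact Or.inr h4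
  refine (measure_mono hsub).trans ((measure_union_le _ _).trans ?_)
  rw [coins_cyl, coins_cyl, Finset.card_union_of_disjoint hdis, hblk, ← two_mul]
  have h5 : (2 : ENNReal)⁻¹ ^ (t.card + (n + 2)) =
      2⁻¹ * (2⁻¹ ^ t.card * 2⁻¹ ^ (n + 1)) := by
    rw [← pow_add, ← pow_succ']
    congr 1
  rw [h5, ← mul_assoc, ENNReal.mul_inv_cancel (by norm_num) (by norm_num), one_mul]

theorem tsum_half (M : ℕ) : ∑' k : ℕ, (2 : ENNReal)⁻¹ ^ (M + k + 1) = 2⁻¹ ^ M := by
  have h1 : ∀ k : ℕ, (2 : ENNReal)⁻¹ ^ (M + k + 1) = 2⁻¹ ^ (M + 1) * 2⁻¹ ^ k := by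
    intro k
    rw [← pow_add]
    congr 1
    ring
  simp only [h1]
  rw [ENNReal.tsum_mul_left, ENNReal.tsum_geometric, ENNReal.one_sub_inv_two, inv_inv, pow_succ,
    mul_assoc, ENNReal.inv_mul_cancel (by norm_num) (by norm_num), mul_one]

/-- basic sets have positive measure -/
theorem pos_basic (s : T.XS) (t : Finset W) (d : Finset (N × A)) :
    0 < coins _ {ω | (∀ ξ ∈ t, (T.Phi ω).1.1 ξ = s.1.1 ξ) ∧
      ∀ v ∈ d, (T.Phi ω).1.2 v = s.1.2 v} := by
  classical
  let F : Finset W := t.filter (fun ξ => s.1.1 ξ = true)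
  let M : ℕ := max (d.sup fun v => T.lev v.1 + 1) F.card
  let D : Finset (N × A) := d ∪ F.biUnion (fun ξ => (Finset.range M).biUnion (fun n =>
      (Finset.range (n + 2)).image (fun j => T.pt ξ n j)))
  let t' : Finset (W ⊕ (N × A)) := t.disjSum D
  let val : W ⊕ (N × A) → Bool := Sum.elim s.1.1 s.1.2
  have hD : ∀ p ∈ D, T.lev p.1 < M := by
    intro p hp
    simp only [D, Finset.mem_union, Finset.mem_biUnion, Finset.mem_image, Finset.mem_range] at hp
    rcases hp with hp | ⟨ξ, _, n, hn, j, _, rfl⟩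
    · have h1 : T.lev p.1 + 1 ≤ d.sup fun v => T.lev v.1 + 1 :=
        Finset.le_sup (f := fun v : N × A => T.lev v.1 + 1) hp
      have h2 : (d.sup fun v => T.lev v.1 + 1) ≤ M := le_max_left _ _
      omega
    · simp only [pt, T.lev_node]
      exact hn
  have ht' : ∀ p : N × A, Sum.inr p ∈ t' → T.lev p.1 < M := by
    intro p hp
    rw [Finset.inr_mem_disjSum] at hp
    exact hD p hp
  let E : Set (W ⊕ (N × A) → Bool) :=
    {ω | ω ∈ cyl t' val ∧ ∀ ξ ∈ F, ∀ k, T.Good (col ω) ξ (M + k)}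
  -- the event is contained in the set
  have hE : E ⊆ {ω | (∀ ξ ∈ t, (T.Phi ω).1.1 ξ = s.1.1 ξ) ∧
      ∀ v ∈ d, (T.Phi ω).1.2 v = s.1.2 v} := by
    rintro ω ⟨h1, h2⟩
    have hW : ∀ ξ ∈ t, ω (Sum.inl ξ) = s.1.1 ξ := fun ξ hξ =>
      h1 (Sum.inl ξ) (Finset.inl_mem_disjSum.2 hξ)
    have hN : ∀ p ∈ D, ω (Sum.inr p) = s.1.2 p := fun p hp =>
      h1 (Sum.inr p) (Finset.inr_mem_disjSum.2 hp)
    constructor
    · intro ξ hξ
      change decide (ω (Sum.inl ξ) = true ∧ ∀ n, T.Good (col ω) ξ n) = s.1.1 ξ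
      cases hs : s.1.1 ξ with
      | true =>
        rw [decide_eq_true_eq]
        refine ⟨(hW ξ hξ).trans hs, fun n => ?_⟩
        have hξF : ξ ∈ F := Finset.mem_filter.2 ⟨hξ, hs⟩
        rcases Nat.lt_or_ge n M with hn | hn
        · have hmem : ∀ j ≤ n + 1, T.pt ξ n j ∈ D := by
            intro j hj
            simp only [D, Finset.mem_union, Finset.mem_biUnion, Finset.mem_image,
              Finset.mem_range]
            exact Or.inr ⟨ξ, hξF, n, hn, j, by omega, rfl⟩
          obtain ⟨j, hj, h3⟩ := s.2 ξ hs n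
          refine ⟨j, hj, ?_⟩
          change ω _ ≠ ω _
          rw [hN _ (hmem j hj), hN _ (hmem 0 (by omega))]
          exact h3
        · obtain ⟨k, rfl⟩ := Nat.exists_eq_add_of_le hn
          exact h2 ξ hξF k
      | false =>
        rw [decide_eq_false_iff_not]
        rintro ⟨h3, _⟩
        rw [hW ξ hξ, hs] at h3
        exact absurd h3 (by simp)
    · intro v hv
      exact hN v (Finset.mem_union_left _ hv)
  refine lt_of_lt_of_le ?_ (measure_mono hE)
  rw [pos_iff_ne_zero]
  intro h0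
  have hcov : cyl t' val ⊆ E ∪ ⋃ ξ ∈ F, ⋃ k, (cyl t' val ∩ {ω | ¬ T.Good (col ω) ξ (M + k)}) := by
    intro ω hω
    by_cases h1 : ∀ ξ ∈ F, ∀ k, T.Good (col ω) ξ (M + k)
    · exact Or.inl ⟨hω, h1⟩
    · push Not at h1
      obtain ⟨ξ, hξ, k, hk⟩ := h1
      right
      simp only [mem_iUnion]
      exact ⟨ξ, hξ, k, hω, hk⟩
  have h1 := measure_mono (μ := coins (W ⊕ (N × A))) hcov
  have h2 : coins (W ⊕ (N × A)) (⋃ ξ ∈ F, ⋃ k, (cyl t' val ∩
      {ω | ¬ T.Good (col ω) ξ (M + k)})) ≤ F.card * (2⁻¹ ^ t'.card * 2⁻¹ ^ M) := by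
    refine (measure_biUnion_finset_le _ _).trans ?_
    rw [← nsmul_eq_mul]
    refine Finset.sum_le_card_nsmul _ _ _ fun ξ _ => ?_
    refine (measure_iUnion_le _).trans ?_
    rw [← tsum_half M, ← ENNReal.tsum_mul_left]
    refine ENNReal.tsum_le_tsum fun k => ?_
    exact T.bad_le t' val ξ (M + k) fun p hp => lt_of_lt_of_le (ht' p hp) (by omega)
  have h3 := h1.trans ((measure_union_le _ _).trans (add_le_add le_rfl h2))
  rw [h0, zero_add, coins_cyl] at h3
  have hpos : (2 : ENNReal)⁻¹ ^ t'.card ≠ 0 := pow_ne_zero _ (by norm_num)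
  have hfin : (2 : ENNReal)⁻¹ ^ t'.card ≠ ⊤ := ENNReal.pow_ne_top (by norm_num)
  have h4 : (F.card : ENNReal) * 2⁻¹ ^ M < 1 := by
    have h5 : F.card < 2 ^ M := lt_of_lt_of_le (Nat.lt_two_pow_self) (Nat.pow_le_pow_right
      (by norm_num) (le_max_right _ _))
    rw [← ENNReal.inv_pow, ← div_eq_mul_inv, ENNReal.div_lt_iff (Or.inl (by positivity))
      (Or.inl (ENNReal.pow_ne_top (by norm_num))), one_mul]
    exact_mod_cast h5
  have h6 : (F.card : ENNReal) * (2⁻¹ ^ t'.card * 2⁻¹ ^ M) =
      2⁻¹ ^ t'.card * ((F.card : ENNReal) * 2⁻¹ ^ M) := by ring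
  rw [h6] at h3
  have h7 : (2 : ENNReal)⁻¹ ^ t'.card * ((F.card : ENNReal) * 2⁻¹ ^ M) < 2⁻¹ ^ t'.card * 1 :=
    (ENNReal.mul_lt_mul_iff_right hpos hfin).2 h4
  rw [mul_one] at h7
  exact absurd h3 (not_le.2 h7)

/-- The space carries a strictly positive regular Borel probability measure. -/
theorem exists_measure [MeasurableSpace T.XS] [BorelSpace T.XS] :
    ∃ μ : Measure T.XS, IsProbabilityMeasure μ ∧ μ.Regular ∧
      ∀ U : Set T.XS, IsOpen U → U.Nonempty → 0 < μ U := by
  classical
  obtain ⟨μ, h1, h2, h3⟩ := exists_law (coins (W ⊕ (N × A))) T.Phi T.measurable_Phi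
  refine ⟨μ, h1, h2, ?_⟩
  rintro U hU ⟨s, hs⟩
  obtain ⟨t, d, htd⟩ := T.exists_basic U hU s hs
  let ρ : T.XS → (t → Bool) × (d → Bool) := fun u => (fun ξ => u.1.1 ξ.1, fun v => u.1.2 v.1)
  have hρ : Continuous ρ := by fun_prop
  let f : C(T.XS, ℝ) := ⟨fun u => if ρ u = ρ s then 1 else 0,
    (continuous_of_discreteTopology
      (f := fun q : (t → Bool) × (d → Bool) => if q = ρ s then (1 : ℝ) else 0)).comp hρ⟩
  let K : Set T.XS := ρ ⁻¹' {ρ s}
  have hK : MeasurableSet K := ((isOpen_discrete {ρ s}).preimage hρ).measurableSet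
  have hKU : K ⊆ U := by
    intro u hu
    have hu' : ρ u = ρ s := hu
    apply htd u
    · intro ξ hξ
      exact congrFun (congrArg Prod.fst hu') ⟨ξ, hξ⟩
    · intro v hv
      exact congrFun (congrArg Prod.snd hu') ⟨v, hv⟩
  refine lt_of_lt_of_le ?_ (measure_mono hKU)
  have hf : (fun u => f u) = K.indicator (fun _ => (1 : ℝ)) := by
    funext u
    simp only [f, ContinuousMap.coe_mk, Set.indicator]
    by_cases h : ρ u = ρ s
    · rw [if_pos h, if_pos (show u ∈ K from h)]
    · rw [if_neg h, if_neg (show ¬ u ∈ K from h)]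
  have h4 : ∫ u, f u ∂μ = μ.real K := by
    rw [hf, integral_indicator_const _ hK, smul_eq_mul, mul_one]
  have h5 : ∫ ω, f (T.Phi ω) ∂(coins (W ⊕ (N × A))) =
      (coins (W ⊕ (N × A))).real (T.Phi ⁻¹' K) := by
    have h6 : (fun ω => f (T.Phi ω)) = (T.Phi ⁻¹' K).indicator (fun _ => (1 : ℝ)) := by
      funext ω
      exact congrFun hf (T.Phi ω)
    have h7 : MeasurableSet (T.Phi ⁻¹' K) := by
      have h8 := T.measurable_Phi f
      have h9 : T.Phi ⁻¹' K = (fun ω => f (T.Phi ω)) ⁻¹' {1} := by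
        ext ω
        simp only [mem_preimage, mem_singleton_iff, K, f, ContinuousMap.coe_mk]
        split_ifs with h <;> simp [h]
      rw [h9]
      exact h8 (measurableSet_singleton 1)
    rw [h6, integral_indicator_const _ h7, smul_eq_mul, mul_one]
  have h6 := h3 f
  rw [h4, h5] at h6
  have h7 : T.Phi ⁻¹' K = {ω | (∀ ξ ∈ t, (T.Phi ω).1.1 ξ = s.1.1 ξ) ∧
      ∀ v ∈ d, (T.Phi ω).1.2 v = s.1.2 v} := by
    ext ω
    constructor
    · intro hω
      have hω' : ρ (T.Phi ω) = ρ s := hω
      exact ⟨fun ξ hξ => congrFun (congrArg Prod.fst hω') ⟨ξ, hξ⟩,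
        fun v hv => congrFun (congrArg Prod.snd hω') ⟨v, hv⟩⟩
    · rintro ⟨ha, hb⟩
      change ρ (T.Phi ω) = ρ s
      exact Prod.ext (funext fun ξ => ha ξ.1 ξ.2) (funext fun v => hb v.1 v.2)
  have h8 := T.pos_basic s t d
  rw [← h7] at h8
  rw [pos_iff_ne_zero]
  intro h9
  rw [measureReal_def, h9, ENNReal.toReal_zero, measureReal_def] at h6
  have h10 := (ENNReal.toReal_eq_zero_iff _).1 h6.symm
  rcases h10 with h10 | h10
  · exact absurd h10 h8.ne'
  · exact absurd h10 (measure_ne_top _ _)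

end Tr

end Pool.Agent.Helper40.Spec
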