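import Pool.Agent.Helper40.Spec.Common

/-!
# Singular cardinals
-/

set_option autoImplicit false

namespace Pool.Agent.Helper40.Spec

open Set Cardinal

/-- `Δ`-systems with roots `R j` on large sets `J j`, `θ j` large: after removing few indices, elements
which belong to members for different `j` are in the roots. -/
theorem thin {Λ ι α : Type} (θ : Λ → Cardinal.{0}) (hθ : ∀ j, RU (θ j))
    (hΛ : ∀ j, Sm (θ j) (univ : Set Λ)) (P : ι → Finset α) (J : Λ → Set ι)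
    (hJ : ∀ j, ¬ Sm (θ j) (J j)) (hJ' : ∀ j, #(J j) ≤ θ j) (R : Λ → Finset α)
    (hR : ∀ j, ∀ i ∈ J j, ∀ i' ∈ J j, i ≠ i' → ∀ a, a ∈ P i → a ∈ P i' → a ∈ R j) :
    ∃ J' : Λ → Set ι, (∀ j, J' j ⊆ J j) ∧ (∀ j, ¬ Sm (θ j) (J' j)) ∧
      ∀ j j', θ j ≠ θ j' → ∀ i ∈ J' j, ∀ i' ∈ J' j', ∀ a, a ∈ P i → a ∈ P i' →
        a ∈ R j ∧ a ∈ R j' := by
  let B : Λ → Set α := fun j => (⋃ j' ∈ {j' | θ j' < θ j}, ⋃ i ∈ J j', (↑(P i) : Set α)) ∪
    ⋃ j' ∈ (univ : Set Λ), (↑(R j') : Set α)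
  have hB : ∀ j, Sm (θ j) (B j) := by
    intro j
    refine (hθ j).union ((hθ j).biUnion ((hΛ j).mono (subset_univ _)) fun j' hj' => ?_)
      ((hθ j).biUnion (hΛ j) fun j' _ => (hθ j).countable (R j').countable_toSet)
    exact (hθ j).biUnion (lt_of_le_of_lt (hJ' j') hj') fun i _ =>
      (hθ j).countable (P i).countable_toSet
  let J' : Λ → Set ι := fun j => {i | i ∈ J j ∧ ∀ a ∈ P i, a ∈ B j → a ∈ R j}
  have hsm : ∀ j, ¬ Sm (θ j) (J' j) := by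
    intro j h
    apply hJ j
    have h1 : Sm (θ j) (⋃ a ∈ B j, {i | i ∈ J j ∧ a ∈ P i ∧ a ∉ R j}) := by
      refine (hθ j).biUnion (hB j) fun a _ => (hθ j).subsingleton ?_
      rintro i ⟨hi, hi1, hi2⟩ i' ⟨hi', hi1', -⟩
      by_contra hne
      exact hi2 (hR j i hi i' hi' hne a hi1 hi1')
    refine ((hθ j).union h h1).mono fun i hi => ?_
    by_cases h2 : ∀ a ∈ P i, a ∈ B j → a ∈ R j
    · exact Or.inl ⟨hi, h2⟩
    · push Not at h2
      obtain ⟨a, ha, haB, haR⟩ := h2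
      right
      simp only [mem_iUnion]
      exact ⟨a, haB, hi, ha, haR⟩
  have key : ∀ j j', θ j' < θ j → ∀ i ∈ J' j, ∀ i' ∈ J' j', ∀ a, a ∈ P i → a ∈ P i' →
      a ∈ R j ∧ a ∈ R j' := by
    intro j j' hlt i hi i' hi' a ha ha'
    have h1 : a ∈ B j := by
      left
      simp only [mem_iUnion]
      exact ⟨j', hlt, i', hi'.1, ha'⟩
    have h2 := hi.2 a ha h1
    have h3 : a ∈ B j' := by
      right
      simp only [mem_iUnion]
      exact ⟨j, mem_univ _, h2⟩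
    exact ⟨h2, hi'.2 a ha' h3⟩
  refine ⟨J', fun j i hi => hi.1, hsm, ?_⟩
  intro j j' hne i hi i' hi' a ha ha'
  rcases lt_or_gt_of_ne hne with h | h
  · exact (key j' j h i' hi' i hi a ha' ha).symm
  · exact key j j' h i hi i' hi' a ha ha'

theorem RU.nonempty {κ : Cardinal.{0}} (hκ : RU κ) {ι : Type} {S : Set ι} (h : ¬ Sm κ S) :
    S.Nonempty := by
  by_contra h1
  rw [not_nonempty_iff_eq_empty] at h1
  exact h (hκ.countable (by rw [h1]; exact countable_empty))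

/-- a large set has a further element -/
theorem RU.exists_ne {κ : Cardinal.{0}} (hκ : RU κ) {ι : Type} {S : Set ι} (h : ¬ Sm κ S) (i : ι) :
    ∃ i' ∈ S, i' ≠ i := by
  by_contra h1
  push Not at h1
  refine h (hκ.subsingleton fun a ha b hb => ?_)
  rw [h1 a ha, h1 b hb]

namespace Tr

variable {W N A : Type} (T : Tr W N A)

theorem caliber_sing {lam κ : Cardinal.{0}} (hlam : RU lam) (hLC : T.LC lam)
    {Λ ι : Type} (hΛ : ¬ Sm lam (univ : Set Λ)) (hΛ' : #Λ ≤ lam) (θ : Λ → Cardinal.{0})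
    (hθ : ∀ j, RU (θ j)) (hθLC : ∀ j, T.LC (θ j)) (hθl : ∀ j, lam < θ j)
    (hcof : ∀ μ < κ, Sm lam {j | θ j ≤ μ})
    (I : Λ → Set ι) (hI : ∀ j, #(I j) = θ j)
    (U : ι → Set T.XS) (hU : ∀ i, IsOpen (U i) ∧ (U i).Nonempty) :
    ∃ J : Set ι, κ ≤ #J ∧ (⋂ i ∈ J, U i).Nonempty := by
  classical
  choose s hs using fun i => (hU i).2
  choose t d htd using fun i => T.exists_basic (U i) (hU i).1 (s i) (hs i)
  let L : ι → ℕ := fun i => (d i).sup (fun v => T.lev v.1 + 1)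
  -- step 1
  have h1 : ∀ j, ∃ (J : Set ι) (n : ℕ) (R : Finset W), J ⊆ I j ∧ ¬ Sm (θ j) J ∧
      (∀ i ∈ J, L i = n) ∧
      ∀ i ∈ J, ∀ i' ∈ J, i ≠ i' → T.FF s t i ∩ T.FF s t i' ⊆ R := by
    intro j
    have hj : ¬ Sm (θ j) (I j) := by
      unfold Sm
      rw [hI j]
      exact lt_irrefl _
    obtain ⟨n, hn⟩ := fiber (hθ j) L (I j) hj
    obtain ⟨J, hJ, hJc, R, -, hR⟩ := delta_system (hθ j) (T.FF s t) _ hn
    exact ⟨J, n, R, fun i hi => (hJ hi).1, hJc, fun i hi => (hJ hi).2, hR⟩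
  choose J1 N1 R1 h1a h1b h1c h1d using h1
  -- step 2
  obtain ⟨Λ1, -, hΛ1, M1, -, hsep1⟩ := T.separated hlam hLC R1 univ hΛ 0
  -- step 3
  have h2 := fun j => T.separated (hθ j) (hθLC j) (T.FF s t) (J1 j) (h1b j) (max M1 (N1 j))
  choose J2 h2a h2b M2 h2c h2d using h2
  -- step 4
  obtain ⟨M, hM⟩ := fiber hlam M2 Λ1 hΛ1
  -- step 5
  let P : ι → Finset (N ⊕ (W ⊕ (N × A))) := fun i =>
    (T.FF s t i).image (fun ξ => Sum.inl (T.node ξ M)) ∪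
      ((t i).image (fun ξ => Sum.inr (Sum.inl ξ)) ∪
        (T.DD s t d M i).image (fun v => Sum.inr (Sum.inr v)))
  have hP1 : ∀ i ξ, ξ ∈ T.FF s t i → Sum.inl (T.node ξ M) ∈ P i := by
    intro i ξ h
    exact Finset.mem_union_left _ (Finset.mem_image_of_mem _ h)
  have hP1' : ∀ i ν, Sum.inl ν ∈ P i → ∃ ξ ∈ T.FF s t i, T.node ξ M = ν := by
    intro i ν h
    simp only [P, Finset.mem_union, Finset.mem_image, Sum.inl.injEq, reduceCtorEq, and_false,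
      exists_false, or_false] at h
    exact h
  have hP2 : ∀ i ξ, ξ ∈ t i → Sum.inr (Sum.inl ξ) ∈ P i := by
    intro i ξ h
    exact Finset.mem_union_right _ (Finset.mem_union_left _ (Finset.mem_image_of_mem _ h))
  have hP2' : ∀ i ξ, Sum.inr (Sum.inl ξ) ∈ P i → ξ ∈ t i := by
    intro i ξ h
    simp only [P, Finset.mem_union, Finset.mem_image, Sum.inr.injEq, Sum.inl.injEq, reduceCtorEq,
      and_false, exists_false, false_or, or_false, exists_eq_right] at h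
    exact h
  have hP3 : ∀ i v, v ∈ T.DD s t d M i → Sum.inr (Sum.inr v) ∈ P i := by
    intro i v h
    exact Finset.mem_union_right _ (Finset.mem_union_right _ (Finset.mem_image_of_mem _ h))
  have hP3' : ∀ i v, Sum.inr (Sum.inr v) ∈ P i → v ∈ T.DD s t d M i := by
    intro i v h
    simp only [P, Finset.mem_union, Finset.mem_image, Sum.inr.injEq, reduceCtorEq,
      and_false, exists_false, false_or, exists_eq_right] at h
    exact h
  have h3 : ∀ j, ∃ (J : Set ι) (R : Finset (N ⊕ (W ⊕ (N × A)))), J ⊆ J2 j ∧ ¬ Sm (θ j) J ∧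
      (∀ i ∈ J, ∀ i' ∈ J, ∀ ξ, ξ ∈ t i → ξ ∈ t i' → (s i).1.1 ξ = (s i').1.1 ξ) ∧
      (∀ i ∈ J, ∀ i' ∈ J, ∀ v, v ∈ T.DD s t d M i → v ∈ T.DD s t d M i' →
        (s i).1.2 v = (s i').1.2 v) ∧ (∀ i ∈ J, R ⊆ P i) ∧
      ∀ i ∈ J, ∀ i' ∈ J, i ≠ i' → P i ∩ P i' ⊆ R := by
    intro j
    obtain ⟨Ja, ha, ha', hca⟩ := compatible (hθ j) t (fun i => (s i).1.1) (J2 j) (h2b j)
    obtain ⟨Jb, hb, hb', hcb⟩ := compatible (hθ j) (T.DD s t d M) (fun i => (s i).1.2) Ja ha'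
    obtain ⟨J, hJ, hJc, R, hR, hR'⟩ := delta_system (hθ j) P Jb hb'
    exact ⟨J, R, fun i hi => ha (hb (hJ hi)), hJc,
      fun i hi i' hi' => hca i (hb (hJ hi)) i' (hb (hJ hi')),
      fun i hi i' hi' => hcb i (hJ hi) i' (hJ hi'), hR, hR'⟩
  choose J3 R3 h3a h3b h3c h3d h3e h3f using h3
  -- step 6
  choose ρ hρ using fun j => (hθ j).nonempty (h3b j)
  obtain ⟨Λa, ha, ha', hca⟩ := compatible hlam (fun j => t (ρ j)) (fun j => (s (ρ j)).1.1) _ hM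
  obtain ⟨Λ3, hb, hb', hcb⟩ := compatible hlam (fun j => T.DD s t d M (ρ j))
    (fun j => (s (ρ j)).1.2) Λa ha'
  obtain ⟨Λ4, hΛ4, hbij⟩ := Set.exists_subset_bijOn Λ3 θ
  -- step 7
  have h3I : ∀ j, J3 j ⊆ I j := fun j i hi => h1a j (h2a j (h3a j hi))
  obtain ⟨J4, h4a, h4b, h4c⟩ := thin θ hθ
    (fun j => lt_of_le_of_lt ((mk_le_mk_of_subset (subset_univ _)).trans
      (by rw [mk_univ]; exact hΛ')) (hθl j)) P J3 h3b
    (fun j => (mk_le_mk_of_subset (h3I j)).trans (hI j).le) R3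
    (fun j i hi i' hi' hne a h h' => h3f j i hi i' hi' hne (Finset.mem_inter.2 ⟨h, h'⟩))
  let J : Set ι := ⋃ j ∈ Λ4, J4 j
  have hΛ4' : ∀ j ∈ Λ4, j ∈ Λ1 ∧ M2 j = M := fun j hj => ha (hb (hΛ4 hj))
  have hdlen : ∀ i ∈ J, ∀ v ∈ d i, T.lev v.1 < M := by
    intro i hi v hv
    simp only [J, mem_iUnion] at hi
    obtain ⟨j, hj, hi⟩ := hi
    have e1 : L i = N1 j := h1c j i (h2a j (h3a j (h4a j hi)))
    have e2 : T.lev v.1 + 1 ≤ L i := Finset.le_sup (f := fun v : N × A => T.lev v.1 + 1) hv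
    have e3 : max M1 (N1 j) ≤ M2 j := h2c j
    have e4 := (hΛ4' j hj).2
    have e5 : N1 j ≤ max M1 (N1 j) := le_max_right _ _
    omega
  have hroot : ∀ j ∈ Λ4, ∀ i ∈ J4 j, ∀ ξ ∈ T.FF s t i, Sum.inl (T.node ξ M) ∈ R3 j →
      ξ ∈ R1 j := by
    intro j hj i hi ξ hξ hR
    obtain ⟨i2, hi2, hne⟩ := (hθ j).exists_ne (h3b j) i
    obtain ⟨ξ', hξ', hν⟩ := hP1' i2 _ (h3e j i2 hi2 hR)
    have e := h2d j i2 (h3a j hi2) i (h3a j (h4a j hi)) ξ' hξ' ξ hξ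
      (by rw [(hΛ4' j hj).2]; exact hν)
    subst e
    exact h1d j i2 (h2a j (h3a j hi2)) i (h2a j (h3a j (h4a j hi))) hne
      (Finset.mem_inter.2 ⟨hξ', hξ⟩)
  suffices hex : ∃ u : T.XS, ∀ i ∈ J, (∀ ξ ∈ t i, u.1.1 ξ = (s i).1.1 ξ) ∧
      ∀ v ∈ d i, u.1.2 v = (s i).1.2 v by
    obtain ⟨u, hu⟩ := hex
    refine ⟨J, ?_, u, ?_⟩
    · by_contra hlt
      rw [not_le] at hlt
      have e1 := hcof _ hlt
      have e2 : ∃ j ∈ Λ3, ¬ θ j ≤ #J := by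
        by_contra hcon
        push Not at hcon
        exact hb' (e1.mono fun j hj => hcon j hj)
      obtain ⟨j, hj, hj'⟩ := e2
      obtain ⟨j2, hj2, e3⟩ := hbij.surjOn ⟨j, hj, rfl⟩
      rw [not_le] at hj'
      refine h4b j2 ?_
      unfold Sm
      rw [e3]
      refine lt_of_le_of_lt (mk_le_mk_of_subset ?_) hj'
      intro i hi
      simp only [J, mem_iUnion]
      exact ⟨j2, hj2, hi⟩
    · simp only [mem_iInter]
      exact fun i hi => htd i u (hu i hi).1 (hu i hi).2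
  refine T.common s t d J M hdlen ?_ ?_ ?_
  · intro i hi i' hi' ξ hξ η hη hν
    simp only [J, mem_iUnion] at hi hi'
    obtain ⟨j, hj, hi⟩ := hi
    obtain ⟨j', hj', hi'⟩ := hi'
    by_cases hjj : j = j'
    · subst hjj
      exact h2d j i (h3a j (h4a j hi)) i' (h3a j (h4a j hi')) ξ hξ η hη
        (by rw [(hΛ4' j hj).2]; exact hν)
    · have hne : θ j ≠ θ j' := fun e => hjj (hbij.injOn hj hj' e)
      have h5 := h4c j j' hne i hi i' hi' _ (hP1 i ξ hξ) (by rw [hν]; exact hP1 i' η hη)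
      refine hsep1 j (hΛ4' j hj).1 j' (hΛ4' j' hj').1 ξ (hroot j hj i hi ξ hξ h5.1) η
        (hroot j' hj' i' hi' η hη (by rw [← hν]; exact h5.2)) (T.mono ?_ hν)
      have e3 : max M1 (N1 j) ≤ M2 j := h2c j
      have e4 := (hΛ4' j hj).2
      have e5 : M1 ≤ max M1 (N1 j) := le_max_left _ _
      omega
  · intro i hi i' hi' ξ hξ hξ'
    simp only [J, mem_iUnion] at hi hi'
    obtain ⟨j, hj, hi⟩ := hi
    obtain ⟨j', hj', hi'⟩ := hi'
    by_cases hjj : j = j'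
    · subst hjj
      exact h3c j i (h4a j hi) i' (h4a j hi') ξ hξ hξ'
    · have hne : θ j ≠ θ j' := fun e => hjj (hbij.injOn hj hj' e)
      have h5 := h4c j j' hne i hi i' hi' _ (hP2 i ξ hξ) (hP2 i' ξ hξ')
      have e1 : ξ ∈ t (ρ j) := hP2' _ _ (h3e j _ (hρ j) h5.1)
      have e2 : ξ ∈ t (ρ j') := hP2' _ _ (h3e j' _ (hρ j') h5.2)
      rw [h3c j i (h4a j hi) (ρ j) (hρ j) ξ hξ e1, h3c j' i' (h4a j' hi') (ρ j') (hρ j') ξ hξ' e2]
      exact hca j (hb (hΛ4 hj)) j' (hb (hΛ4 hj')) ξ e1 e2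
  · intro i hi i' hi' v hv hv'
    simp only [J, mem_iUnion] at hi hi'
    obtain ⟨j, hj, hi⟩ := hi
    obtain ⟨j', hj', hi'⟩ := hi'
    by_cases hjj : j = j'
    · subst hjj
      exact h3d j i (h4a j hi) i' (h4a j hi') v hv hv'
    · have hne : θ j ≠ θ j' := fun e => hjj (hbij.injOn hj hj' e)
      have h5 := h4c j j' hne i hi i' hi' _ (hP3 i v hv) (hP3 i' v hv')
      have e1 : v ∈ T.DD s t d M (ρ j) := hP3' _ _ (h3e j _ (hρ j) h5.1)
      have e2 : v ∈ T.DD s t d M (ρ j') := hP3' _ _ (h3e j' _ (hρ j') h5.2)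
      rw [h3d j i (h4a j hi) (ρ j) (hρ j) v hv e1, h3d j' i' (h4a j' hi') (ρ j') (hρ j') v hv' e2]
      exact hcb j (hΛ4 hj) j' (hΛ4 hj') v e1 e2

end Tr

end Pool.Agent.Helper40.Spec
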