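import Pool.Agent.Helper40.Spec.Delta

/-!
# The compact space built from a tree of blocks
-/

set_option autoImplicit false

namespace Pool.Agent.Helper40.Spec

open Set Cardinal

/-- Branches `ξ : W` through a tree with nodes in `N`, and at every node of every branch an
infinite sequence of different labels. -/
structure Tr (W N A : Type) where
  /-- the branches -/
  node : W → ℕ → N
  /-- the level of a node -/
  lev : N → ℕ
  lev_node : ∀ ξ n, lev (node ξ n) = n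
  down : ∀ ξ η n, node ξ (n + 1) = node η (n + 1) → node ξ n = node η n
  sep : ∀ ξ η, ξ ≠ η → ∃ n, node ξ n ≠ node η n
  /-- the labels -/
  a : W → ℕ → ℕ → A
  inj : ∀ ξ n, Function.Injective (a ξ n)

namespace Tr

variable {W N A : Type} (T : Tr W N A)

theorem mono {ξ η : W} {n m : ℕ} (hnm : n ≤ m) (h : T.node ξ m = T.node η m) :
    T.node ξ n = T.node η n := by
  induction m with
  | zero =>
    have : n = 0 := by omega
    rw [this]
    exact h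
  | succ m ih =>
    rcases Nat.lt_or_ge m n with h1 | h1
    · have : n = m + 1 := by omega
      rw [this]
      exact h
    · exact ih h1 (T.down ξ η m h)

/-- the coordinate of the label `j` at the `n`-th node of `ξ` -/
def pt (ξ : W) (n j : ℕ) : N × A := (T.node ξ n, T.a ξ n j)

/-- the condition at the level `n` of the branch `ξ`: the colouring is not constant on the first
`n + 2` labels -/
def Good (y : N × A → Bool) (ξ : W) (n : ℕ) : Prop :=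
  ∃ j ≤ n + 1, y (T.pt ξ n j) ≠ y (T.pt ξ n 0)

/-- The set of the pairs (set of branches, colouring which is good on these branches). -/
def XS : Set ((W → Bool) × (N × A → Bool)) :=
  {s | ∀ ξ, s.1 ξ = true → ∀ n, T.Good s.2 ξ n}

theorem isClosed_XS : IsClosed T.XS := by
  have : T.XS = ⋂ ξ, ⋂ n, {s | s.1 ξ = true → T.Good s.2 ξ n} := by
    ext s
    simp only [XS, mem_setOf_eq, mem_iInter]
    constructor
    · intro h ξ n h1
      exact h ξ h1 n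
    · intro h ξ h1 n
      exact h ξ n h1
  rw [this]
  refine isClosed_iInter fun ξ => isClosed_iInter fun n => ?_
  have hcont : Continuous (fun s : (W → Bool) × (N × A → Bool) =>
      (s.1 ξ, fun j : Fin (n + 2) => s.2 (T.pt ξ n j.1), s.2 (T.pt ξ n 0))) := by
    fun_prop
  have : {s : (W → Bool) × (N × A → Bool) | s.1 ξ = true → T.Good s.2 ξ n} =
      (fun s : (W → Bool) × (N × A → Bool) =>
      (s.1 ξ, fun j : Fin (n + 2) => s.2 (T.pt ξ n j.1), s.2 (T.pt ξ n 0))) ⁻¹'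
        {t : Bool × (Fin (n + 2) → Bool) × Bool | t.1 = true → ∃ j, t.2.1 j ≠ t.2.2} := by
    ext s
    simp only [mem_setOf_eq, mem_preimage, Good]
    refine imp_congr_right fun _ => ?_
    constructor
    · rintro ⟨j, hj, h⟩
      exact ⟨⟨j, by omega⟩, h⟩
    · rintro ⟨j, h⟩
      exact ⟨j.1, by omega, h⟩
  rw [this]
  exact (isClosed_discrete _).preimage hcont

/-- few branches run through few nodes -/
def LC (κ : Cardinal.{0}) : Prop :=
  ∀ K : Set N, Sm κ K → Sm κ {ξ | ∀ n, T.node ξ n ∈ K}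

/-- Large subfamilies can be separated at some level. -/
theorem separated {κ : Cardinal.{0}} (hκ : RU κ) (hLC : T.LC κ) {ι : Type}
    (F : ι → Finset W) (I : Set ι) (hI : ¬ Sm κ I) (N₀ : ℕ) :
    ∃ J, J ⊆ I ∧ ¬ Sm κ J ∧ ∃ M, N₀ ≤ M ∧
      ∀ i ∈ J, ∀ j ∈ J, ∀ ξ ∈ F i, ∀ η ∈ F j, T.node ξ M = T.node η M → ξ = η := by
  classical
  obtain ⟨J₁, hJ₁, hJ₁c, R, hR1, hR2⟩ := delta_system hκ F I hI
  by_contra hcon
  push Not at hcon
  let P : ℕ → Set (Set ι) := fun M => {J | J ⊆ J₁ ∧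
    ∀ i ∈ J, ∀ j ∈ J, ∀ ξ ∈ F i, ∀ η ∈ F j, T.node ξ M = T.node η M → ξ = η}
  have hmax : ∀ M, ∃ J, Maximal (· ∈ P M) J := by
    intro M
    refine zorn_subset (P M) ?_
    intro ch hcP hchain
    refine ⟨⋃₀ ch, ⟨?_, ?_⟩, fun s hs => subset_sUnion_of_mem hs⟩
    · exact sUnion_subset fun s hs => (hcP hs).1
    · rintro i ⟨s, hs, his⟩ j ⟨t, ht, hjt⟩
      rcases hchain.total hs ht with hst | hts
      · exact (hcP ht).2 i (hst his) j hjt
      · exact (hcP hs).2 i his j (hts hjt)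
  choose Mx hM using hmax
  have hMc : ∀ M, N₀ ≤ M → Sm κ (Mx M) := by
    intro M hN
    by_contra hnc
    obtain ⟨i, hi, j, hj, ξ, hξ, η, hη, h1, h2⟩ :=
      hcon (Mx M) ((hM M).prop.1.trans hJ₁) hnc M hN
    exact h2 ((hM M).prop.2 i hi j hj ξ hξ η hη h1)
  -- the small set of all involved branches
  let S : Set W := ⋃ M ∈ {M | N₀ ≤ M}, ⋃ i ∈ Mx M, (↑(F i) : Set W)
  have hS : Sm κ S := by
    refine hκ.biUnion (hκ.countable (Set.to_countable _)) fun M hN =>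
      hκ.biUnion (hMc M hN) fun i _ => ?_
    exact hκ.countable (F i).countable_toSet
  let K : Set N := ⋃ ξ ∈ S, range (T.node ξ)
  have hK : Sm κ K := hκ.biUnion hS fun ξ _ => hκ.countable (countable_range _)
  have hZ := hLC K hK
  set Z := {ξ | ∀ n, T.node ξ n ∈ K} with hZdef
  -- indices meeting Z outside R
  have hbad : Sm κ {i | i ∈ J₁ ∧ ∃ ξ ∈ F i, ξ ∉ R ∧ ξ ∈ Z} := by
    have : {i | i ∈ J₁ ∧ ∃ ξ ∈ F i, ξ ∉ R ∧ ξ ∈ Z} ⊆
        ⋃ ξ ∈ Z, {i | i ∈ J₁ ∧ ξ ∈ F i ∧ ξ ∉ R} := by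
      rintro i ⟨hi, ξ, hξ, hR, hz⟩
      simp only [mem_iUnion]
      exact ⟨ξ, hz, hi, hξ, hR⟩
    refine (hκ.biUnion hZ fun ξ _ => ?_).mono this
    apply hκ.subsingleton
    rintro i ⟨hi, h1, h2⟩ j ⟨hj, h3, _⟩
    by_contra hij
    exact h2 (hR2 i hi j hj hij (Finset.mem_inter.2 ⟨h1, h3⟩))
  have hbad2 : Sm κ (⋃ M ∈ {M | N₀ ≤ M}, Mx M) :=
    hκ.biUnion (hκ.countable (Set.to_countable _)) fun M hN => hMc M hN
  have hex : ∃ i ∈ J₁, i ∉ {i | i ∈ J₁ ∧ ∃ ξ ∈ F i, ξ ∉ R ∧ ξ ∈ Z} ∧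
      i ∉ (⋃ M ∈ {M | N₀ ≤ M}, Mx M) := by
    by_contra h
    push Not at h
    apply hJ₁c
    refine (hκ.union hbad hbad2).mono fun i hi => ?_
    by_cases h1 : i ∈ {i | i ∈ J₁ ∧ ∃ ξ ∈ F i, ξ ∉ R ∧ ξ ∈ Z}
    · exact Or.inl h1
    · exact Or.inr (h i hi h1)
  obtain ⟨i, hiJ, hi1, hi2⟩ := hex
  -- choose the level
  have hN1 : ∃ N₁, ∀ ξ ∈ F i, ∀ η ∈ F i, ∀ M, N₁ ≤ M → T.node ξ M = T.node η M → ξ = η := by
    have : ∀ q : W × W, ∃ N₁, ∀ M, N₁ ≤ M → T.node q.1 M = T.node q.2 M → q.1 = q.2 := by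
      rintro ⟨ξ, η⟩
      by_cases h : ξ = η
      · exact ⟨0, fun _ _ _ => h⟩
      · obtain ⟨n, hn⟩ := T.sep ξ η h
        exact ⟨n, fun M hM h' => absurd (T.mono hM h') hn⟩
    choose g hg using this
    refine ⟨(F i ×ˢ F i).sup g, fun ξ hξ η hη M hN h => ?_⟩
    refine hg (ξ, η) M (le_trans ?_ hN) h
    exact Finset.le_sup (Finset.mem_product.2 ⟨hξ, hη⟩)
  obtain ⟨N₁, hN₁⟩ := hN1
  have hN2 : ∃ N₂, ∀ ξ ∈ F i, ξ ∉ R → ∀ M, N₂ ≤ M → ∀ η ∈ S, T.node ξ M ≠ T.node η M := by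
    have : ∀ ξ : W, ∃ N₂, ξ ∈ F i → ξ ∉ R → ∀ M, N₂ ≤ M → ∀ η ∈ S,
        T.node ξ M ≠ T.node η M := by
      intro ξ
      by_cases h : ξ ∈ F i ∧ ξ ∉ R
      · have hz : ξ ∉ Z := fun hz => hi1 ⟨hiJ, ξ, h.1, h.2, hz⟩
        simp only [hZdef, mem_setOf_eq, not_forall] at hz
        obtain ⟨n, hn⟩ := hz
        refine ⟨n, fun _ _ M hN η hη h' => ?_⟩
        apply hn
        rw [T.mono hN h']
        simp only [K, mem_iUnion]
        exact ⟨η, hη, mem_range_self n⟩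
      · exact ⟨0, fun h1 h2 => absurd ⟨h1, h2⟩ h⟩
    choose g hg using this
    refine ⟨(F i).sup g, fun ξ hξ hR M hN => hg ξ hξ hR M (le_trans ?_ hN)⟩
    exact Finset.le_sup hξ
  obtain ⟨N₂, hN₂⟩ := hN2
  let M := max N₀ (max N₁ N₂)
  have hN0 : N₀ ≤ M := le_max_left _ _
  have hN1' : N₁ ≤ M := le_trans (le_max_left _ _) (le_max_right _ _)
  have hN2' : N₂ ≤ M := le_trans (le_max_right _ _) (le_max_right _ _)
  have hiM : i ∉ Mx M := by
    intro h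
    apply hi2
    simp only [mem_iUnion]
    exact ⟨M, hN0, h⟩
  have hSM : ∀ j ∈ Mx M, ∀ η ∈ F j, η ∈ S := by
    intro j hj η hη
    simp only [S, mem_iUnion]
    exact ⟨M, hN0, j, hj, hη⟩
  have key : ∀ j ∈ Mx M, ∀ ξ ∈ F i, ∀ η ∈ F j, T.node ξ M = T.node η M → ξ = η := by
    intro j hj ξ hξ η hη h
    by_cases hR : ξ ∈ R
    · have hξj : ξ ∈ F j := hR1 j ((hM M).prop.1 hj) hR
      exact (hM M).prop.2 j hj j hj ξ hξj η hη h
    · exact absurd h (hN₂ ξ hξ hR M hN2' η (hSM j hj η hη))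
  have hins : insert i (Mx M) ∈ P M := by
    refine ⟨insert_subset hiJ (hM M).prop.1, ?_⟩
    rintro x hx y hy ξ hξ η hη h
    rcases hx with rfl | hx
    · rcases hy with rfl | hy
      · exact hN₁ ξ hξ η hη M hN1' h
      · exact key y hy ξ hξ η hη h
    · rcases hy with rfl | hy
      · exact (key x hx η hη ξ hξ h.symm).symm
      · exact (hM M).prop.2 x hx y hy ξ hξ η hη h
  have := (hM M).le_of_ge hins (subset_insert i (Mx M))
  exact hiM (this (mem_insert i (Mx M)))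

/-- Basic neighbourhoods. -/
theorem exists_basic (U : Set T.XS) (hU : IsOpen U) (s : T.XS)
    (hs : s ∈ U) : ∃ (t : Finset W) (d : Finset (N × A)), ∀ u : T.XS,
      (∀ ξ ∈ t, u.1.1 ξ = s.1.1 ξ) → (∀ v ∈ d, u.1.2 v = s.1.2 v) → u ∈ U := by
  rw [isOpen_induced_iff] at hU
  obtain ⟨V, hV, rfl⟩ := hU
  rw [isOpen_prod_iff] at hV
  obtain ⟨V₁, V₂, hV₁, hV₂, h1, h2, hsub⟩ := hV s.1.1 s.1.2 hs
  rw [isOpen_pi_iff] at hV₁ hV₂
  obtain ⟨t, u₁, ht, htV⟩ := hV₁ s.1.1 h1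
  obtain ⟨d, u₂, hd, hdV⟩ := hV₂ s.1.2 h2
  refine ⟨t, d, fun u hu1 hu2 => ?_⟩
  apply hsub
  refine ⟨htV ?_, hdV ?_⟩
  · intro ξ hξ
    rw [hu1 ξ hξ]
    exact (ht ξ hξ).2
  · intro v hv
    rw [hu2 v hv]
    exact (hd v hv).2

end Tr

end Pool.Agent.Helper40.Spec
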